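import Mathlib

section

/-!
Lattices built from coloured point-line geometries.

`V` carries a relation `r` (point `u` lies on line `v`) and a colouring `c`.  Every vertex `v` is
replaced by a chain of `c v + 1` elements, and a bottom and a top element are added.
-/

set_option autoImplicit false

namespace Pool.Agent.MP_a1dcd4_co

structure Geo (V : Type) where
  r : V → V → Prop
  c : V → ℕ
  h2 : ∀ u v w, r u v → r v w → False
  hlin : ∀ x y l m, r x l → r y l → r x m → r y m → x = y ∨ l = m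
  hline : ∀ x l, r x l → ∃ y, y ≠ x ∧ r y l

variable {V : Type}

inductive El (Γ : Geo V) : Type
  | bot : El Γ
  | top : El Γ
  | mid (v : V) (k : ℕ) (h : k ≤ Γ.c v) : El Γ

namespace El

variable {Γ : Geo V}

def le' : El Γ → El Γ → Prop
  | bot, _ => True
  | top, top => True
  | top, bot => False
  | top, mid _ _ _ => False
  | mid _ _ _, top => True
  | mid _ _ _, bot => False
  | mid v k _, mid w j _ => (v = w ∧ k ≤ j) ∨ Γ.r v w

instance instPO : PartialOrder (El Γ) where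
  le := le'
  le_refl a := by cases a <;> simp [le']
  le_trans a b c := by
    cases a <;> cases b <;> cases c <;> simp only [le', imp_self, implies_true, false_imp_iff]
    rintro (⟨rfl, h1⟩ | h1) (⟨rfl, h2⟩ | h2)
    · exact Or.inl ⟨rfl, h1.trans h2⟩
    · exact Or.inr h2
    · exact Or.inr h1
    · exact (Γ.h2 _ _ _ h1 h2).elim
  le_antisymm a b := by
    cases a <;> cases b <;> simp only [le', imp_self, implies_true, false_imp_iff, true_imp_iff]
    rintro (⟨rfl, h1⟩ | h1) (⟨h, h2⟩ | h2)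
    · have := le_antisymm h1 h2
      subst this
      rfl
    · exact (Γ.h2 _ _ _ h2 h2).elim
    · subst h
      exact (Γ.h2 _ _ _ h1 h1).elim
    · exact (Γ.h2 _ _ _ h1 h2).elim

theorem bot_le' (a : El Γ) : (bot : El Γ) ≤ a := by
  cases a <;> trivial

theorem le_top' (a : El Γ) : a ≤ (top : El Γ) := by
  cases a <;> trivial

instance instBO : BoundedOrder (El Γ) where
  bot := bot
  top := top
  bot_le := bot_le'
  le_top := le_top'

theorem mid_le_mid {v w : V} {k j : ℕ} {h : k ≤ Γ.c v} {h' : j ≤ Γ.c w} :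
    (mid v k h : El Γ) ≤ mid w j h' ↔ (v = w ∧ k ≤ j) ∨ Γ.r v w := Iff.rfl

theorem not_mid_le_bot {v : V} {k : ℕ} {h : k ≤ Γ.c v} : ¬ (mid v k h : El Γ) ≤ bot :=
  fun h => h

theorem not_top_le_mid {v : V} {k : ℕ} {h : k ≤ Γ.c v} : ¬ (top : El Γ) ≤ mid v k h :=
  fun h => h

theorem not_top_le_bot : ¬ (top : El Γ) ≤ bot := fun h => h

def equivOpt (Γ : Geo V) : El Γ ≃ Option (Option (Σ v : V, Fin (Γ.c v + 1))) where
  toFun
    | bot => none
    | top => some none
    | mid v k h => some (some ⟨v, ⟨k, Nat.lt_succ_of_le h⟩⟩)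
  invFun
    | none => bot
    | some none => top
    | some (some ⟨v, k⟩) => mid v k.1 (Nat.le_of_lt_succ k.2)
  left_inv a := by cases a <;> rfl
  right_inv a := by
    rcases a with _ | _ | ⟨v, k⟩ <;> rfl

theorem card_El [Fintype V] (Γ : Geo V) : Nat.card (El Γ) = 2 + ∑ v, (Γ.c v + 1) := by
  rw [Nat.card_congr (equivOpt Γ), Nat.card_eq_fintype_card, Fintype.card_option,
    Fintype.card_option, Fintype.card_sigma]
  simp only [Fintype.card_fin]
  omega

instance instFin [Finite V] : Finite (El Γ) := Finite.of_equiv _ (equivOpt Γ).symm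

theorem exists_lub (a b : El Γ) : ∃ s, IsLUB {a, b} s := by
  by_cases hab : a ≤ b
  · refine ⟨b, ?_, ?_⟩
    · rintro x (rfl | rfl)
      · exact hab
      · exact le_rfl
    · intro u hu
      exact hu (by simp)
  by_cases hba : b ≤ a
  · refine ⟨a, ?_, ?_⟩
    · rintro x (rfl | rfl)
      · exact le_rfl
      · exact hba
    · intro u hu
      exact hu (by simp)
  cases a with
  | bot => exact (hab (bot_le' _)).elim
  | top => exact (hba (le_top' _)).elim
  | mid v k hk =>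
  cases b with
  | bot => exact (hba (bot_le' _)).elim
  | top => exact (hab (le_top' _)).elim
  | mid w j hj =>
  rw [mid_le_mid] at hab hba
  have hvw : v ≠ w := by
    rintro rfl
    rcases le_total k j with h | h
    · exact hab (Or.inl ⟨rfl, h⟩)
    · exact hba (Or.inl ⟨rfl, h⟩)
  have key : ∀ l i hi, (mid v k hk : El Γ) ≤ mid l i hi → (mid w j hj : El Γ) ≤ mid l i hi →
      Γ.r v l ∧ Γ.r w l := by
    intro l i hi h1 h2
    rw [mid_le_mid] at h1 h2
    rcases h1 with ⟨rfl, -⟩ | h1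
    · rcases h2 with ⟨rfl, -⟩ | h2
      · exact (hvw rfl).elim
      · exact (hba (Or.inr h2)).elim
    · rcases h2 with ⟨rfl, -⟩ | h2
      · exact (hab (Or.inr h1)).elim
      · exact ⟨h1, h2⟩
  by_cases hl : ∃ l, Γ.r v l ∧ Γ.r w l
  · obtain ⟨l, h1, h2⟩ := hl
    refine ⟨mid l 0 (Nat.zero_le _), ?_, ?_⟩
    · rintro x (rfl | rfl)
      · exact Or.inr h1
      · exact Or.inr h2
    · intro u hu
      have hu1 := hu (show mid v k hk ∈ _ by simp)
      have hu2 := hu (show mid w j hj ∈ _ by simp)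
      cases u with
      | bot => exact (not_mid_le_bot hu1).elim
      | top => exact le_top' _
      | mid m i hi =>
        obtain ⟨h3, h4⟩ := key m i hi hu1 hu2
        rcases Γ.hlin v w l m h1 h2 h3 h4 with h | h
        · exact (hvw h).elim
        · exact Or.inl ⟨h, Nat.zero_le _⟩
  · refine ⟨top, ?_, ?_⟩
    · intro x _
      exact le_top' _
    · intro u hu
      have hu1 := hu (show mid v k hk ∈ _ by simp)
      have hu2 := hu (show mid w j hj ∈ _ by simp)
      cases u with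
      | bot => exact (not_mid_le_bot hu1).elim
      | top => exact le_top' _
      | mid m i hi => exact (hl ⟨m, key m i hi hu1 hu2⟩).elim

theorem exists_glb [Finite V] (a b : El Γ) : ∃ s, IsGLB {a, b} s := by
  classical
  choose sup hsup using exists_lub (Γ := Γ)
  letI : SemilatticeSup (El Γ) := SemilatticeSup.ofIsLUB sup hsup
  haveI := Fintype.ofFinite (El Γ)
  refine ⟨(Finset.univ.filter (fun x => x ≤ a ∧ x ≤ b)).sup id, ?_, ?_⟩
  · rintro x (rfl | rfl)
    · exact Finset.sup_le fun y hy => (Finset.mem_filter.1 hy).2.1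
    · exact Finset.sup_le fun y hy => (Finset.mem_filter.1 hy).2.2
  · intro u hu
    exact Finset.le_sup (f := id)
      (Finset.mem_filter.2 ⟨Finset.mem_univ _, hu (by simp), hu (by simp)⟩)

@[instance_reducible]
noncomputable def lattice [Finite V] (Γ : Geo V) : Lattice (El Γ) :=
  Lattice.ofIsLUBofIsGLB (fun a b => (exists_lub a b).choose) (fun a b => (exists_glb a b).choose)
    (fun a b => (exists_lub a b).choose_spec) (fun a b => (exists_glb a b).choose_spec)

/-- the down-set of `a` is a chain -/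
def Low (a : El Γ) : Prop := ∀ b c : El Γ, b ≤ a → c ≤ a → b ≤ c ∨ c ≤ b

theorem low_map (α : El Γ ≃o El Γ) (a : El Γ) : Low (α a) ↔ Low a := by
  constructor
  · intro h b c hb hc
    have := h (α b) (α c) (α.le_iff_le.2 hb) (α.le_iff_le.2 hc)
    simpa only [α.le_iff_le] using this
  · intro h b c hb hc
    have := h (α.symm b) (α.symm c) (α.symm_apply_le.2 hb) (α.symm_apply_le.2 hc)
    simpa only [α.symm.le_iff_le] using this

theorem low_mid (v : V) (k : ℕ) (h : k ≤ Γ.c v) : Low (mid v k h : El Γ) ↔ ∀ u, ¬ Γ.r u v := by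
  constructor
  · intro hl u hu
    obtain ⟨y, hy, hyv⟩ := Γ.hline u v hu
    rcases hl (mid u 0 (Nat.zero_le _)) (mid y 0 (Nat.zero_le _)) (Or.inr hu) (Or.inr hyv) with
      h1 | h1
    · rcases mid_le_mid.1 h1 with ⟨h2, -⟩ | h2
      · exact hy h2.symm
      · exact Γ.h2 _ _ _ h2 hyv
    · rcases mid_le_mid.1 h1 with ⟨h2, -⟩ | h2
      · exact hy h2
      · exact Γ.h2 _ _ _ h2 hu
  · intro hu b c hb hc
    cases b with
    | bot => exact Or.inl (bot_le' _)
    | top => exact (not_top_le_mid hb).elim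
    | mid w j hj =>
    cases c with
    | bot => exact Or.inr (bot_le' _)
    | top => exact (not_top_le_mid hc).elim
    | mid x i hi =>
    rcases mid_le_mid.1 hb with ⟨rfl, -⟩ | h1
    · rcases mid_le_mid.1 hc with ⟨rfl, -⟩ | h2
      · rcases le_total j i with h3 | h3
        · exact Or.inl (Or.inl ⟨rfl, h3⟩)
        · exact Or.inr (Or.inl ⟨rfl, h3⟩)
      · exact (hu _ h2).elim
    · exact (hu _ h1).elim

theorem map_mid (α : El Γ ≃o El Γ) (v : V) (k : ℕ) (h : k ≤ Γ.c v) :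
    ∃ w j hj, α (mid v k h) = mid w j hj := by
  have hb : α bot = bot := α.map_bot
  have ht : α top = top := α.map_top
  cases e : α (mid v k h) with
  | bot => rw [← hb] at e; exact absurd (α.injective e) (by simp)
  | top => rw [← ht] at e; exact absurd (α.injective e) (by simp)
  | mid w j hj => exact ⟨w, j, hj, rfl⟩

/-- comparable elements of the same chain go to the same chain -/
theorem same_chain (α : El Γ ≃o El Γ) (v : V) (k k' : ℕ) (h : k ≤ Γ.c v) (h' : k' ≤ Γ.c v)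
    (hk : k ≤ k') {w w' : V} {j j' : ℕ} {hj : j ≤ Γ.c w} {hj' : j' ≤ Γ.c w'}
    (e : α (mid v k h) = mid w j hj) (e' : α (mid v k' h') = mid w' j' hj') :
    w = w' ∧ j ≤ j' := by
  have hle : α (mid v k h) ≤ α (mid v k' h') := α.le_iff_le.2 (Or.inl ⟨rfl, hk⟩)
  rw [e, e'] at hle
  rcases mid_le_mid.1 hle with h1 | h1
  · exact h1
  · exfalso
    have l1 := low_map α (mid v k h)
    have l2 := low_map α (mid v k' h')
    rw [e, low_mid, low_mid] at l1
    rw [e', low_mid, low_mid] at l2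
    have n2 : ¬ ∀ u, ¬ Γ.r u v := fun hh => l2.2 hh w h1
    apply n2
    apply l1.1
    intro u hu
    exact Γ.h2 _ _ _ hu h1

noncomputable def vmap (α : El Γ ≃o El Γ) (v : V) : V :=
  (map_mid α v 0 (Nat.zero_le _)).choose

theorem vmap_spec (α : El Γ ≃o El Γ) (v : V) (k : ℕ) (h : k ≤ Γ.c v) :
    ∃ j hj, α (mid v k h) = mid (vmap α v) j hj ∧ k ≤ j := by
  induction k with
  | zero =>
    obtain ⟨j, hj, e⟩ := (map_mid α v 0 (Nat.zero_le _)).choose_spec
    exact ⟨j, hj, e, Nat.zero_le _⟩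
  | succ k ih =>
    obtain ⟨j, hj, e, hkj⟩ := ih (Nat.le_of_succ_le h)
    obtain ⟨w, j', hj', e'⟩ := map_mid α v (k + 1) h
    obtain ⟨h1, h2⟩ := same_chain α v k (k + 1) _ h (Nat.le_succ k) e e'
    subst h1
    refine ⟨j', hj', e', ?_⟩
    rcases h2.lt_or_eq with h3 | h3
    · omega
    · subst h3
      have := α.injective (e.trans e'.symm)
      simp at this

theorem vmap_full (α : El Γ ≃o El Γ) (v : V) (k : ℕ) (h : k ≤ Γ.c v) :
    vmap α.symm (vmap α v) = v ∧ ∃ hk, α (mid v k h) = mid (vmap α v) k hk := by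
  obtain ⟨j, hj, e, hkj⟩ := vmap_spec α v k h
  obtain ⟨i, hi, e', hji⟩ := vmap_spec α.symm (vmap α v) j hj
  rw [← e, α.symm_apply_apply] at e'
  injection e' with h1 h2
  have : j = k := by omega
  subst this
  exact ⟨h1.symm, hj, e⟩

theorem c_vmap (α : El Γ ≃o El Γ) (v : V) : Γ.c (vmap α v) = Γ.c v := by
  obtain ⟨h1, h2, -⟩ := vmap_full α v (Γ.c v) le_rfl
  obtain ⟨-, h3, -⟩ := vmap_full α.symm (vmap α v) (Γ.c (vmap α v)) le_rfl
  rw [h1] at h3
  omega

theorem r_vmap (α : El Γ ≃o El Γ) (u v : V) (h : Γ.r u v) : Γ.r (vmap α u) (vmap α v) := by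
  obtain ⟨h1, hk, e⟩ := vmap_full α u 0 (Nat.zero_le _)
  obtain ⟨h2, hk', e'⟩ := vmap_full α v 0 (Nat.zero_le _)
  have hle : α (mid u 0 (Nat.zero_le _)) ≤ α (mid v 0 (Nat.zero_le _)) :=
    α.le_iff_le.2 (Or.inr h)
  rw [e, e'] at hle
  rcases mid_le_mid.1 hle with ⟨h3, -⟩ | h3
  · have : u = v := by rw [← h1, h3, h2]
    subst this
    exact (Γ.h2 _ _ _ h h).elim
  · exact h3

section Act

variable {G : Type} [Group G] [MulAction G V]

def act (hc : ∀ (g : G) v, Γ.c (g • v) = Γ.c v) (g : G) : El Γ → El Γ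
  | bot => bot
  | top => top
  | mid v k h => mid (g • v) k ((hc g v).symm ▸ h)

theorem act_mul (hc : ∀ (g : G) v, Γ.c (g • v) = Γ.c v) (g g' : G) (a : El Γ) :
    act hc (g * g') a = act hc g (act hc g' a) := by
  cases a <;> simp [act, mul_smul]

theorem act_one (hc : ∀ (g : G) v, Γ.c (g • v) = Γ.c v) (a : El Γ) :
    act hc (1 : G) a = a := by
  cases a <;> simp [act]

def actIso (hc : ∀ (g : G) v, Γ.c (g • v) = Γ.c v)
    (hr : ∀ (g : G) u v, Γ.r (g • u) (g • v) ↔ Γ.r u v) (g : G) : El Γ ≃o El Γ where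
  toFun := act hc g
  invFun := act hc g⁻¹
  left_inv a := by rw [← act_mul, inv_mul_cancel, act_one]
  right_inv a := by rw [← act_mul, mul_inv_cancel, act_one]
  map_rel_iff' := by
    intro a b
    cases a <;> cases b <;> try exact Iff.rfl
    simp only [Equiv.coe_fn_mk, act, mid_le_mid, hr, smul_left_cancel_iff]

def actHom (hc : ∀ (g : G) v, Γ.c (g • v) = Γ.c v)
    (hr : ∀ (g : G) u v, Γ.r (g • u) (g • v) ↔ Γ.r u v) : G →* (El Γ ≃o El Γ) where
  toFun := actIso hc hr
  map_one' := by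
    ext a
    exact act_one hc a
  map_mul' g g' := by
    ext a
    exact act_mul hc g g' a

end Act

end El

theorem lattice_of_geo {G : Type} [Group G] [Fintype V] [MulAction G V] (Γ : Geo V)
    (hc : ∀ (g : G) v, Γ.c (g • v) = Γ.c v)
    (hr : ∀ (g : G) u v, Γ.r (g • u) (g • v) ↔ Γ.r u v)
    (hfaith : ∀ g : G, (∀ v : V, g • v = v) → g = 1)
    (hrigid : ∀ f f' : V → V, (∀ v, f' (f v) = v) → (∀ v, f (f' v) = v) →
      (∀ u v, Γ.r u v → Γ.r (f u) (f v)) → (∀ u v, Γ.r u v → Γ.r (f' u) (f' v)) →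
      (∀ v, Γ.c (f v) = Γ.c v) → ∃ g : G, ∀ v, f v = g • v) :
    ∃ (L : Type) (_ : Lattice L) (_ : Finite L),
      Nat.card L = 2 + ∑ v, (Γ.c v + 1) ∧ Nonempty ((L ≃o L) ≃* G) := by
  refine ⟨El Γ, El.lattice Γ, inferInstance, El.card_El Γ, ⟨?_⟩⟩
  refine (MulEquiv.ofBijective (El.actHom hc hr) ⟨?_, ?_⟩).symm
  · rw [injective_iff_map_eq_one]
    intro g hg
    apply hfaith
    intro v
    have : El.act hc g (El.mid v 0 (Nat.zero_le _)) = El.mid v 0 (Nat.zero_le _) :=
      congrArg (fun β : El Γ ≃o El Γ => β (El.mid v 0 (Nat.zero_le _))) hg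
    simp only [El.act] at this
    injection this
  · intro α
    obtain ⟨g, hg⟩ := hrigid (El.vmap α) (El.vmap α.symm)
      (fun v => (El.vmap_full α v 0 (Nat.zero_le _)).1)
      (fun v => (El.vmap_full α.symm v 0 (Nat.zero_le _)).1)
      (El.r_vmap α) (El.r_vmap α.symm) (El.c_vmap α)
    refine ⟨g, ?_⟩
    ext a
    change El.act hc g a = α a
    cases a with
    | bot => exact (α.map_bot).symm
    | top => exact (α.map_top).symm
    | mid v k h =>
      obtain ⟨-, hk, e⟩ := El.vmap_full α v k h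
      rw [e]
      simp only [El.act, hg]

end Pool.Agent.MP_a1dcd4_co

end

section

/-!
Geometries whose points are finitely many copies of a group `G` and whose lines are cosets.
A line of type `i` is a coset `g K i` in the base copy together with `g K i S i` in copy `τ i`.
-/

set_option autoImplicit false

namespace Pool.Agent.MP_a1dcd4_co

open Function

variable {G T I : Type} [Group G]

def Vx (T : Type) (K : I → Subgroup G) : Type := (G × Option T) ⊕ (Σ i : I, G ⧸ K i)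

noncomputable instance instFintypeVx [Fintype G] [Fintype T] [Fintype I] (K : I → Subgroup G) :
    Fintype (Vx T K) := by
  classical
  exact inferInstanceAs (Fintype ((G × Option T) ⊕ (Σ i : I, G ⧸ K i)))

def vsmul (K : I → Subgroup G) (g : G) : Vx T K → Vx T K
  | Sum.inl (h, t) => Sum.inl (g * h, t)
  | Sum.inr ⟨i, q⟩ => Sum.inr ⟨i, g • q⟩

instance instMulActionVx (K : I → Subgroup G) : MulAction G (Vx T K) where
  smul := vsmul K
  one_smul v := by
    rcases v with ⟨h, t⟩ | ⟨i, q⟩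
    · change vsmul K 1 _ = _
      simp [vsmul]
    · change vsmul K 1 _ = _
      simp [vsmul]
  mul_smul g g' v := by
    rcases v with ⟨h, t⟩ | ⟨i, q⟩
    · change vsmul K _ _ = vsmul K _ (vsmul K _ _)
      simp [vsmul, mul_assoc]
    · change vsmul K _ _ = vsmul K _ (vsmul K _ _)
      simp [vsmul, mul_smul]

def pt (K : I → Subgroup G) (h : G) (t : Option T) : Vx T K := Sum.inl (h, t)

def ln (T : Type) (K : I → Subgroup G) (i : I) (q : G ⧸ K i) : Vx T K := Sum.inr ⟨i, q⟩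

theorem smul_pt (K : I → Subgroup G) (g h : G) (t : Option T) :
    g • pt K h t = pt K (g * h) t := rfl

theorem smul_ln (K : I → Subgroup G) (g : G) (i : I) (q : G ⧸ K i) :
    g • ln T K i q = ln T K i (g • q) := rfl

theorem vx_cases (K : I → Subgroup G) (v : Vx T K) :
    (∃ h t, v = pt K h t) ∨ ∃ i, ∃ g : G, v = ln T K i (g : G ⧸ K i) := by
  rcases v with ⟨h, t⟩ | ⟨i, q⟩
  · exact Or.inl ⟨h, t, rfl⟩
  · obtain ⟨g, rfl⟩ := QuotientGroup.mk_surjective q
    exact Or.inr ⟨i, g, rfl⟩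

def inc (K : I → Subgroup G) (S : I → Set G) (τ : I → T) : Vx T K → Vx T K → Prop
  | Sum.inl (h, t), Sum.inr ⟨i, q⟩ =>
      ∃ g : G, (g : G ⧸ K i) = q ∧ ((t = none ∧ g = h) ∨ (t = some (τ i) ∧ g⁻¹ * h ∈ S i))
  | Sum.inl _, Sum.inl _ => False
  | Sum.inr _, _ => False

theorem inc_pt_ln (K : I → Subgroup G) (S : I → Set G) (τ : I → T) (h : G) (t : Option T) (i : I)
    (q : G ⧸ K i) : inc K S τ (pt K h t) (ln T K i q) ↔
      ∃ g : G, (g : G ⧸ K i) = q ∧ ((t = none ∧ g = h) ∨ (t = some (τ i) ∧ g⁻¹ * h ∈ S i)) :=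
  Iff.rfl

theorem not_inc_pt (K : I → Subgroup G) (S : I → Set G) (τ : I → T) (v : Vx T K) (h : G)
    (t : Option T) : ¬ inc K S τ v (pt K h t) := by
  rcases v with ⟨h, t⟩ | ⟨i, q⟩ <;> exact fun h => h

theorem not_ln_inc (K : I → Subgroup G) (S : I → Set G) (τ : I → T) (v : Vx T K) (i : I)
    (q : G ⧸ K i) : ¬ inc K S τ (ln T K i q) v := by
  rcases v with ⟨h, t⟩ | ⟨i, q⟩ <;> exact fun h => h

theorem inc_shape (K : I → Subgroup G) (S : I → Set G) (τ : I → T) (u v : Vx T K)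
    (h : inc K S τ u v) : ∃ x t i q, u = pt K x t ∧ v = ln T K i q := by
  rcases u with ⟨x, t⟩ | ⟨j, q⟩
  · rcases v with ⟨y, t'⟩ | ⟨i, q⟩
    · exact h.elim
    · exact ⟨x, t, i, q, rfl, rfl⟩
  · exact (not_ln_inc K S τ v j q h).elim

def colr (K : I → Subgroup G) (cp : Option T → ℕ) (col : I → ℕ) : Vx T K → ℕ
  | Sum.inl (_, t) => cp t
  | Sum.inr ⟨i, _⟩ => col i

theorem ln_eq_of_mem (K : I → Subgroup G) (i : I) (g g' : G) (h : g⁻¹ * g' ∈ K i) :
    ln T K i (g : G ⧸ K i) = ln T K i (g' : G ⧸ K i) := by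
  rw [QuotientGroup.eq.2 h]

theorem lattice_of_system [Finite G] [Fintype T] [Fintype I]
    (cp : Option T → ℕ) (hcp : Injective cp)
    (K : I → Subgroup G) (S : I → Set G) (τ : I → T) (col : I → ℕ) (hcol : Injective col)
    (hS : ∀ i, (S i).Nonempty)
    (ha : ∀ i j, i ≠ j → ∀ x ∈ K i, x ∈ K j → x = 1)
    (hb : ∀ i j, i ≠ j → τ i = τ j → ∀ k ∈ K i, ∀ s ∈ S i, ∀ k' ∈ K j, ∀ s' ∈ S j,
      k * s ≠ k' * s')
    (hc1 : ∀ i j, i ≠ j → τ i = τ j → ∀ k ∈ K i, ∀ s ∈ S i, ∀ t ∈ S i, ∀ k' ∈ K j, ∀ s' ∈ S j,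
      ∀ t' ∈ S j, s⁻¹ * k * t = s'⁻¹ * k' * t' → s⁻¹ * k * t = 1)
    (hc2 : ∀ i, ∀ k ∈ K i, ∀ s ∈ S i, ∀ t ∈ S i, ∀ k' ∈ K i, ∀ s' ∈ S i, ∀ t' ∈ S i,
      s⁻¹ * k * t = s'⁻¹ * k' * t' → s⁻¹ * k * t = 1 ∨ s * s'⁻¹ ∈ K i)
    (hlink : ∀ t, ∃ i, τ i = t ∧ K i = ⊥ ∧ S i = {1})
    (hrigid : ∀ φ : G → G, (∀ i g, ∀ s ∈ S i, ∃ k ∈ K i, ∃ s' ∈ S i, φ (g * s) = φ g * k * s') →
      ∀ g z, φ (g * z) = φ g * z) :
    ∃ (L : Type) (_ : Lattice L) (_ : Finite L),
      Nat.card L = 2 + ((∑ t, (cp t + 1)) * Nat.card G + ∑ i, (col i + 1) * (K i).index) ∧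
        Nonempty ((L ≃o L) ≃* G) := by
  classical
  have := Fintype.ofFinite G
  let Γ : Geo (Vx T K) :=
    { r := inc K S τ
      c := colr K cp col
      h2 := by
        intro u v w h1 h2
        obtain ⟨x, t, i, q, rfl, rfl⟩ := inc_shape K S τ u v h1
        exact not_ln_inc K S τ w i q h2
      hlin := by
        intro x y l m h1 h2 h3 h4
        obtain ⟨x, t, i, q, rfl, rfl⟩ := inc_shape K S τ x l h1
        obtain ⟨y, u, j, q', rfl, rfl⟩ := inc_shape K S τ y m h4
        obtain ⟨g1, rfl, c1⟩ := (inc_pt_ln ..).1 h1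
        obtain ⟨g2, e2, c2⟩ := (inc_pt_ln ..).1 h2
        obtain ⟨g3, rfl, c3⟩ := (inc_pt_ln ..).1 h3
        obtain ⟨g4, e4, c4⟩ := (inc_pt_ln ..).1 h4
        have e2' : g1⁻¹ * g2 ∈ K i := QuotientGroup.eq.1 e2.symm
        have e4' : g3⁻¹ * g4 ∈ K j := QuotientGroup.eq.1 e4.symm
        by_cases hij : i = j
        · subst hij
          rcases c1 with ⟨rfl, rfl⟩ | ⟨rfl, c1⟩
          · rcases c3 with ⟨-, rfl⟩ | ⟨c3, -⟩
            · exact Or.inr rfl
            · cases c3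
          · rcases c3 with ⟨c3, -⟩ | ⟨-, c3⟩
            · cases c3
            rcases c2 with ⟨rfl, rfl⟩ | ⟨rfl, c2⟩
            · rcases c4 with ⟨-, rfl⟩ | ⟨c4, -⟩
              · right
                rw [← e2, e4]
              · cases c4
            · rcases c4 with ⟨c4, -⟩ | ⟨-, c4⟩
              · cases c4
              rcases hc2 i _ e2' _ c1 _ c2 _ e4' _ c3 _ c4 (by group) with h | h
              · left
                have : x = y := by
                  have h' : x⁻¹ * y = 1 := by rw [← h]; group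
                  exact inv_mul_eq_one.1 h'
                rw [this]
              · right
                apply ln_eq_of_mem
                convert h using 1
                group
        · left
          rcases c1 with ⟨rfl, rfl⟩ | ⟨rfl, c1⟩
          · rcases c3 with ⟨-, rfl⟩ | ⟨c3, -⟩
            swap
            · cases c3
            rcases c2 with ⟨rfl, rfl⟩ | ⟨rfl, c2⟩
            · rcases c4 with ⟨-, rfl⟩ | ⟨c4, -⟩
              · have := ha i j hij _ e2' e4'
                rw [inv_mul_eq_one.1 this]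
              · cases c4
            · rcases c4 with ⟨c4, -⟩ | ⟨c4', c4⟩
              · cases c4
              exact (hb i j hij (Option.some.inj c4') _ e2' _ c2 _ e4' _ c4 (by group)).elim
          · rcases c3 with ⟨c3, -⟩ | ⟨c3', c3⟩
            · cases c3
            have hτ : τ i = τ j := Option.some.inj c3'
            rcases c2 with ⟨rfl, rfl⟩ | ⟨rfl, c2⟩
            · rcases c4 with ⟨-, rfl⟩ | ⟨c4, -⟩
              · exact (hb i j hij hτ _ ((K i).inv_mem e2') _ c1 _ ((K j).inv_mem e4') _ c3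
                  (by group)).elim
              · cases c4
            · rcases c4 with ⟨c4, -⟩ | ⟨-, c4⟩
              · cases c4
              have h := hc1 i j hij hτ _ e2' _ c1 _ c2 _ e4' _ c3 _ c4 (by group)
              have : x = y := by
                have h' : x⁻¹ * y = 1 := by rw [← h]; group
                exact inv_mul_eq_one.1 h'
              rw [this]
      hline := by
        intro x l h1
        obtain ⟨x, t, i, q, rfl, rfl⟩ := inc_shape K S τ x l h1
        obtain ⟨g1, rfl, c1⟩ := (inc_pt_ln ..).1 h1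
        rcases c1 with ⟨rfl, rfl⟩ | ⟨rfl, c1⟩
        · obtain ⟨s, hs⟩ := hS i
          refine ⟨pt K (g1 * s) (some (τ i)), ?_, g1, rfl, Or.inr ⟨rfl, by simpa using hs⟩⟩
          intro h
          injection h with h
          injection h with _ h
          cases h
        · refine ⟨pt K g1 none, ?_, g1, rfl, Or.inl ⟨rfl, rfl⟩⟩
          intro h
          injection h with h
          injection h with _ h
          cases h }
  have hinc : ∀ (g : G) (u v : Vx T K), inc K S τ u v → inc K S τ (g • u) (g • v) := by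
    intro g u v h
    obtain ⟨x, t, i, q, rfl, rfl⟩ := inc_shape K S τ u v h
    obtain ⟨g1, rfl, c1⟩ := (inc_pt_ln ..).1 h
    rw [smul_pt, smul_ln, inc_pt_ln]
    refine ⟨g * g1, rfl, ?_⟩
    rcases c1 with ⟨rfl, rfl⟩ | ⟨rfl, c1⟩
    · exact Or.inl ⟨rfl, rfl⟩
    · refine Or.inr ⟨rfl, ?_⟩
      convert c1 using 1
      group
  obtain ⟨L, iL, fL, hcard, hiso⟩ := lattice_of_geo (G := G) Γ
    (by
      intro g v
      rcases v with ⟨h, t⟩ | ⟨i, q⟩ <;> rfl)
    (by
      intro g u v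
      refine ⟨fun h => ?_, hinc g u v⟩
      have := hinc g⁻¹ _ _ h
      simpa using this)
    (by
      intro g hg
      have := hg (pt K 1 none)
      rw [smul_pt] at this
      injection this with h
      simpa using h)
    (by
      intro f f' h1 h2 h3 h4 h5
      change ∀ u v, inc K S τ u v → inc K S τ (f u) (f v) at h3
      change ∀ u v, inc K S τ u v → inc K S τ (f' u) (f' v) at h4
      change ∀ v, colr K cp col (f v) = colr K cp col v at h5
      have hpt : ∀ g t, ∃ h, f (pt K g t) = pt K h t := by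
        intro g t
        rcases vx_cases K (f (pt K g t)) with ⟨h, t', e⟩ | ⟨i, h, e⟩
        · have := h5 (pt K g t)
          rw [e] at this
          have ht : t' = t := hcp this
          exact ⟨h, ht ▸ e⟩
        · exfalso
          have r1 : inc K S τ (pt K h none) (ln T K i h) := ⟨h, rfl, Or.inl ⟨rfl, rfl⟩⟩
          have r2 := h4 _ _ r1
          rw [← e, h1] at r2
          exact not_inc_pt K S τ _ _ _ r2
      choose φ hφ using hpt
      have hln : ∀ i (g : G), f (ln T K i g) = ln T K i (φ g none : G) := by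
        intro i g
        have r1 : inc K S τ (pt K g none) (ln T K i g) := ⟨g, rfl, Or.inl ⟨rfl, rfl⟩⟩
        have r2 := h3 _ _ r1
        obtain ⟨x, t, j, q, e1, e2⟩ := inc_shape K S τ _ _ r2
        have := h5 (ln T K i g)
        rw [e2] at this
        have hji : j = i := hcol this
        subst hji
        rw [e2, hφ] at r2
        obtain ⟨g1, rfl, c1⟩ := (inc_pt_ln ..).1 r2
        rcases c1 with ⟨-, rfl⟩ | ⟨c1, -⟩
        · exact e2
        · cases c1
      have hstep : ∀ i g, ∀ s ∈ S i, ∃ k ∈ K i, ∃ s' ∈ S i,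
          φ (g * s) (some (τ i)) = φ g none * k * s' := by
        intro i g s hs
        have r1 : inc K S τ (pt K (g * s) (some (τ i))) (ln T K i g) :=
          ⟨g, rfl, Or.inr ⟨rfl, by simpa using hs⟩⟩
        have r2 := h3 _ _ r1
        rw [hφ, hln] at r2
        obtain ⟨g1, e1, c1⟩ := (inc_pt_ln ..).1 r2
        rcases c1 with ⟨c1, -⟩ | ⟨-, c1⟩
        · cases c1
        · exact ⟨_, QuotientGroup.eq.1 e1.symm, _, c1, by group⟩
      have hsame : ∀ g t, φ g t = φ g none := by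
        intro g t
        rcases t with _ | t
        · rfl
        · obtain ⟨i, rfl, hK, hS1⟩ := hlink t
          obtain ⟨k, hk, s', hs', e⟩ := hstep i g 1 (by simp [hS1])
          rw [hK, Subgroup.mem_bot] at hk
          rw [hS1, Set.mem_singleton_iff] at hs'
          subst hk hs'
          simpa using e
      have hmul := hrigid (fun g => φ g none) (by
        intro i g s hs
        obtain ⟨k, hk, s', hs', e⟩ := hstep i g s hs
        exact ⟨k, hk, s', hs', by rw [← e, hsame _ (some _)]⟩)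
      have hφ1 : ∀ g, φ g none = φ 1 none * g := by
        intro g
        simpa using hmul 1 g
      refine ⟨φ 1 none, ?_⟩
      intro v
      rcases vx_cases K v with ⟨h, t, rfl⟩ | ⟨i, h, rfl⟩
      · rw [hφ, hsame, hφ1, smul_pt]
      · rw [hln, hφ1, smul_ln]
        rfl)
  refine ⟨L, iL, fL, ?_, hiso⟩
  rw [hcard]
  congr 1
  have e1 : ∑ v : Vx T K, (Γ.c v + 1) =
      ∑ v : (G × Option T) ⊕ (Σ i : I, G ⧸ K i), (colr K cp col v + 1) := by
    apply Finset.sum_congr
    · congr 1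
    · intro v _
      rfl
  rw [e1, Fintype.sum_sum_type, Fintype.sum_prod_type, Fintype.sum_sigma]
  simp only [colr, Finset.sum_const, Finset.card_univ, smul_eq_mul, Nat.card_eq_fintype_card,
    Subgroup.index_eq_card]
  congr 1
  · ring
  · apply Finset.sum_congr rfl
    intro i _
    ring

end Pool.Agent.MP_a1dcd4_co

end

section

/-!
A convenient form of the coset geometry: link lines are added automatically, empty line types are
dropped, and the size is bounded by a constant times the order of the group.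
-/

set_option autoImplicit false

namespace Pool.Agent.MP_a1dcd4_co

open Function

theorem sum_inv_sq_le {I : Type} [Fintype I] (col : I → ℕ) (hcol : Injective col) :
    ∑ i, (((col i + 1 : ℕ) : ℝ) ^ 2)⁻¹ ≤ 2 := by
  classical
  have hinj : Injective (fun i => col i + 1) := fun a b h => hcol (by simpa using h)
  have e : ∑ i, (((col i + 1 : ℕ) : ℝ) ^ 2)⁻¹ =
      ∑ k ∈ Finset.univ.image (fun i => col i + 1), (((k : ℕ) : ℝ) ^ 2)⁻¹ := by
    rw [Finset.sum_image (fun a _ b _ h => hinj h)]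
  rw [e]
  have hsub : Finset.univ.image (fun i => col i + 1) ⊆
      Finset.Ioo 0 (Finset.univ.sup col + 2) := by
    intro k hk
    obtain ⟨i, -, rfl⟩ := Finset.mem_image.1 hk
    have : col i ≤ Finset.univ.sup col := Finset.le_sup (Finset.mem_univ i)
    rw [Finset.mem_Ioo]
    omega
  refine (Finset.sum_le_sum_of_subset_of_nonneg hsub (fun _ _ _ => by positivity)).trans ?_
  have := sum_Ioo_inv_sq_le (α := ℝ) 0 (Finset.univ.sup col + 2)
  simpa using this

theorem cost_sum {I : Type} [Fintype I] (col : I → ℕ) (hcol : Injective col) (n m : I → ℕ)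
    (N C : ℕ) (hn : ∀ i, n i * m i = N) (hC : ∀ i, (col i + 1) ^ 3 ≤ C * m i) :
    ∑ i, (col i + 1) * n i ≤ 2 * C * N := by
  have h1 : ∀ i, (((col i + 1) * n i : ℕ) : ℝ) ≤
      (C * N : ℝ) * (((col i + 1 : ℕ) : ℝ) ^ 2)⁻¹ := by
    intro i
    have hpos : (0 : ℝ) < ((col i + 1 : ℕ) : ℝ) ^ 2 := by positivity
    rw [← div_eq_mul_inv, le_div_iff₀ hpos]
    have h2 : (col i + 1) * n i * (col i + 1) ^ 2 ≤ C * N := by
      calc (col i + 1) * n i * (col i + 1) ^ 2 = (col i + 1) ^ 3 * n i := by ring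
        _ ≤ C * m i * n i := Nat.mul_le_mul_right _ (hC i)
        _ = C * N := by rw [← hn i]; ring
    exact_mod_cast h2
  have h3 : ((∑ i, (col i + 1) * n i : ℕ) : ℝ) ≤ ((2 * C * N : ℕ) : ℝ) := by
    rw [Nat.cast_sum]
    refine (Finset.sum_le_sum fun i _ => h1 i).trans ?_
    rw [← Finset.mul_sum]
    have := sum_inv_sq_le col hcol
    have h4 : (0 : ℝ) ≤ C * N := by positivity
    push_cast at this ⊢
    nlinarith
  exact_mod_cast h3

variable {G T I : Type} [Group G]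

theorem lattice_of_system' [Finite G] [Fintype T] [Fintype I] (C : ℕ)
    (K : I → Subgroup G) (S : I → Set G) (τ : I → T) (col : I → ℕ) (hcol : Injective col)
    (hcost : ∀ i, (col i + 1) ^ 3 ≤ C * Nat.card (K i))
    (h0 : ∀ i, ∀ k ∈ K i, ∀ s ∈ S i, k * s ≠ 1)
    (ha : ∀ i j, i ≠ j → ∀ x ∈ K i, x ∈ K j → x = 1)
    (hb : ∀ i j, i ≠ j → τ i = τ j → ∀ k ∈ K i, ∀ s ∈ S i, ∀ k' ∈ K j, ∀ s' ∈ S j,
      k * s ≠ k' * s')
    (hc1 : ∀ i j, i ≠ j → τ i = τ j → ∀ k ∈ K i, ∀ s ∈ S i, ∀ t ∈ S i, ∀ k' ∈ K j, ∀ s' ∈ S j,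
      ∀ t' ∈ S j, s⁻¹ * k * t = s'⁻¹ * k' * t' → s⁻¹ * k * t = 1)
    (hc2 : ∀ i, ∀ k ∈ K i, ∀ s ∈ S i, ∀ t ∈ S i, ∀ k' ∈ K i, ∀ s' ∈ S i, ∀ t' ∈ S i,
      s⁻¹ * k * t = s'⁻¹ * k' * t' → s⁻¹ * k * t = 1 ∨ s * s'⁻¹ ∈ K i)
    (hrigid : ∀ φ : G → G, (∀ i g, ∀ s ∈ S i, ∃ k ∈ K i, ∃ s' ∈ S i, φ (g * s) = φ g * k * s') →
      ∀ g z, φ (g * z) = φ g * z) :
    ∃ (L : Type) (_ : Lattice L) (_ : Finite L),
      Nat.card L ≤ (2 + (Fintype.card T + 1) ^ 2 + 2 * (8 * C + 8 * Fintype.card T ^ 3)) *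
        Nat.card G ∧ Nonempty ((L ≃o L) ≃* G) := by
  classical
  let J := {i : I // (S i).Nonempty} ⊕ T
  let K' : J → Subgroup G := Sum.elim (fun i => K i.1) (fun _ => ⊥)
  let S' : J → Set G := Sum.elim (fun i => S i.1) (fun _ => {1})
  let τ' : J → T := Sum.elim (fun i => τ i.1) id
  let col' : J → ℕ := Sum.elim (fun i => 2 * col i.1 + 1) (fun t => 2 * (Fintype.equivFin T t).1)
  let cp : Option T → ℕ := fun t => (Fintype.equivFin (Option T) t).1
  have hcp : Injective cp := fun a b h => (Fintype.equivFin (Option T)).injective (Fin.ext h)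
  have hcol' : Injective col' := by
    rintro (a | a) (b | b) h
    · have : col a.1 = col b.1 := by
        simp only [col', Sum.elim_inl] at h
        omega
      rw [Subtype.ext (hcol this)]
    · simp only [col', Sum.elim_inl, Sum.elim_inr] at h
      omega
    · simp only [col', Sum.elim_inl, Sum.elim_inr] at h
      omega
    · simp only [col', Sum.elim_inr] at h
      have : a = b := (Fintype.equivFin T).injective (Fin.ext (by omega))
      rw [this]
  obtain ⟨L, iL, fL, hcard, hiso⟩ := lattice_of_system (G := G) cp hcp K' S' τ' col' hcol'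
    (by
      rintro (i | t)
      · exact i.2
      · exact Set.singleton_nonempty _)
    (by
      rintro (i | t) (j | u) hij x hx hx'
      · exact ha i.1 j.1 (fun h => hij (by rw [Subtype.ext h])) x hx hx'
      · exact Subgroup.mem_bot.1 hx'
      · exact Subgroup.mem_bot.1 hx
      · exact Subgroup.mem_bot.1 hx)
    (by
      rintro (i | t) (j | u) hij hτ k hk s hs k' hk' s' hs'
      · exact hb i.1 j.1 (fun h => hij (by rw [Subtype.ext h])) hτ k hk s hs k' hk' s' hs'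
      · rw [Subgroup.mem_bot.1 hk', Set.mem_singleton_iff.1 hs', one_mul]
        exact h0 i.1 k hk s hs
      · rw [Subgroup.mem_bot.1 hk, Set.mem_singleton_iff.1 hs, one_mul]
        exact (h0 j.1 k' hk' s' hs').symm
      · exact (hij (congrArg Sum.inr hτ)).elim)
    (by
      rintro (i | t) (j | u) hij hτ k hk s hs t ht k' hk' s' hs' t' ht' e
      · exact hc1 i.1 j.1 (fun h => hij (by rw [Subtype.ext h])) hτ k hk s hs t ht k' hk' s' hs'
          t' ht' e
      · rw [e, Subgroup.mem_bot.1 hk', Set.mem_singleton_iff.1 hs', Set.mem_singleton_iff.1 ht']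
        simp
      · rw [Subgroup.mem_bot.1 hk, Set.mem_singleton_iff.1 hs, Set.mem_singleton_iff.1 ht]
        simp
      · exact (hij (congrArg Sum.inr hτ)).elim)
    (by
      rintro (i | t) k hk s hs t ht k' hk' s' hs' t' ht' e
      · exact hc2 i.1 k hk s hs t ht k' hk' s' hs' t' ht' e
      · left
        rw [Subgroup.mem_bot.1 hk, Set.mem_singleton_iff.1 hs, Set.mem_singleton_iff.1 ht]
        simp)
    (fun t => ⟨Sum.inr t, rfl, rfl, rfl⟩)
    (by
      intro φ hφ
      apply hrigid φ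
      intro i g s hs
      exact hφ (Sum.inl ⟨i, s, hs⟩) g s hs)
  refine ⟨L, iL, fL, ?_, hiso⟩
  rw [hcard]
  have hpos : 1 ≤ Nat.card G := Nat.card_pos
  have h1 : ∑ t, (cp t + 1) ≤ (Fintype.card T + 1) ^ 2 := by
    calc ∑ t, (cp t + 1) ≤ ∑ _t : Option T, (Fintype.card T + 1) := by
          apply Finset.sum_le_sum
          intro t _
          have := (Fintype.equivFin (Option T) t).2
          exact this.trans_eq Fintype.card_option
      _ = (Fintype.card T + 1) ^ 2 := by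
          simp [Fintype.card_option, pow_two]
  have h2 := cost_sum col' hcol' (fun i => (K' i).index) (fun i => Nat.card (K' i)) (Nat.card G)
    (8 * C + 8 * Fintype.card T ^ 3) (fun i => (K' i).index_mul_card) (by
      rintro (i | t)
      · have := hcost i.1
        change (2 * col i.1 + 1 + 1) ^ 3 ≤ _ * Nat.card (K i.1)
        calc (2 * col i.1 + 1 + 1) ^ 3 = 8 * (col i.1 + 1) ^ 3 := by ring
          _ ≤ 8 * (C * Nat.card (K i.1)) := Nat.mul_le_mul_left _ this
          _ ≤ _ := by nlinarith [Nat.zero_le (Fintype.card T ^ 3 * Nat.card (K i.1))]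
      · change (2 * (Fintype.equivFin T t).1 + 1) ^ 3 ≤ _ * Nat.card (⊥ : Subgroup G)
        have := (Fintype.equivFin T t).2
        rw [Subgroup.card_bot, mul_one]
        calc (2 * (Fintype.equivFin T t).1 + 1) ^ 3 ≤ (2 * Fintype.card T) ^ 3 :=
              Nat.pow_le_pow_left (by omega) _
          _ = 8 * Fintype.card T ^ 3 := by ring
          _ ≤ _ := Nat.le_add_left _ _)
  have h3 := Nat.mul_le_mul_right (Nat.card G) h1
  nlinarith

end Pool.Agent.MP_a1dcd4_co

end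

section

/-!
A finite `p`-group `Q` contains an elementary abelian subgroup of order `p ^ r` such that `Q` is
generated by at most `4 * r ^ 2` elements.
-/

set_option autoImplicit false

namespace Pool.Agent.MP_a1dcd4_co

open Function Subgroup

theorem ncard_le_mul {α β γ : Type} (A : Set α) (B : Set β) (C : Set γ) (hB : B.Finite)
    (hC : C.Finite) (f : α → β) (hf : ∀ a ∈ A, f a ∈ B) (g : α → α → γ)
    (hg : ∀ a0 ∈ A, ∀ a ∈ A, f a = f a0 → g a0 a ∈ C)
    (hinj : ∀ a0 a a', g a0 a = g a0 a' → a = a') : A.ncard ≤ B.ncard * C.ncard := by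
  classical
  rcases isEmpty_or_nonempty α with h | h
  · have : A = ∅ := Set.eq_empty_of_isEmpty A
    simp [this]
  rw [← Set.ncard_prod]
  refine Set.ncard_le_ncard_of_injOn (fun a => (f a, g (invFunOn f A (f a)) a)) ?_ ?_ (hB.prod hC)
  · intro a ha
    have hex : ∃ a' ∈ A, f a' = f a := ⟨a, ha, rfl⟩
    exact ⟨hf a ha, hg _ (invFunOn_mem hex) a ha (invFunOn_eq hex).symm⟩
  · intro a _ a' _ e
    simp only [Prod.mk.injEq] at e
    obtain ⟨e1, e2⟩ := e
    rw [e1] at e2
    exact hinj _ _ _ e2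

section PGroup

variable {H : Type} [Group H] {p : ℕ} [hp : Fact p.Prime]

theorem mul_card_le_of_lt [Finite H] {N N' : Subgroup H} (h : IsPGroup p N') (hlt : N < N') :
    p * Nat.card N ≤ Nat.card N' := by
  obtain ⟨a, ha⟩ := IsPGroup.iff_card.1 (h.to_le hlt.le)
  obtain ⟨b, hb⟩ := IsPGroup.iff_card.1 h
  have h1 : Nat.card N < Nat.card N' := by
    by_contra h2
    exact hlt.ne (Subgroup.eq_of_le_of_card_ge hlt.le (not_lt.1 h2))
  rw [ha, hb] at h1 ⊢
  have := (Nat.pow_lt_pow_iff_right hp.out.one_lt).1 h1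
  rw [← pow_succ']
  exact Nat.pow_le_pow_right hp.out.pos this

theorem exists_gens [Finite H] (hH : IsPGroup p H) (k : ℕ) :
    ∀ N : Subgroup H, Nat.card H ≤ p ^ k * Nat.card N →
      ∃ Y : Finset H, Y.card ≤ k ∧ closure (Y : Set H) ⊔ N = ⊤ := by
  classical
  induction k with
  | zero =>
    intro N h
    refine ⟨∅, le_rfl, ?_⟩
    rw [Subgroup.eq_top_of_le_card N (by simpa using h)]
    simp
  | succ k ih =>
    intro N h
    by_cases hN : N = ⊤
    · exact ⟨∅, by simp, by simp [hN]⟩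
    obtain ⟨y, hy⟩ : ∃ y, y ∉ N := by
      by_contra h'
      push Not at h'
      exact hN ((Subgroup.eq_top_iff' N).2 h')
    have hlt : N < closure {y} ⊔ N := by
      refine lt_of_le_of_ne le_sup_right fun e => hy ?_
      rw [e]
      exact Subgroup.mem_sup_left (subset_closure rfl)
    have h1 := mul_card_le_of_lt (hH.to_subgroup _) hlt
    obtain ⟨Y, hY, e⟩ := ih (closure {y} ⊔ N) (by
      refine h.trans ?_
      rw [pow_succ, mul_assoc]
      exact Nat.mul_le_mul_left _ h1)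
    refine ⟨insert y Y, (Finset.card_insert_le _ _).trans (by omega), ?_⟩
    rw [Finset.coe_insert, Set.insert_eq, Subgroup.closure_union, sup_comm (closure {y}),
      sup_assoc, e]

theorem pow_mem_frattini [Finite H] (hH : IsPGroup p H) (x : H) : x ^ p ∈ frattini H := by
  unfold frattini Order.radical
  simp only [Subgroup.mem_iInf]
  intro M hM
  have hM : IsCoatom M := hM
  have := hH.isNilpotent
  have hn : M.Normal :=
    NormalizerCondition.normal_of_coatom M Group.normalizerCondition_of_isNilpotent hM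
  by_contra hx
  have htop : zpowers (x ^ p) ⊔ M = ⊤ := by
    apply hM.2
    refine lt_of_le_of_ne le_sup_right fun e => hx ?_
    rw [e]
    exact Subgroup.mem_sup_left (mem_zpowers _)
  have hx1 : x ∈ (zpowers (x ^ p) ⊔ M : Subgroup H) := by rw [htop]; trivial
  rw [← SetLike.mem_coe, Subgroup.mul_normal] at hx1
  obtain ⟨a, ha, m, hm, e⟩ := hx1
  have ha' : a ∈ Submonoid.powers (x ^ p) := mem_powers_iff_mem_zpowers.2 ha
  obtain ⟨j, rfl⟩ := ha'
  have e1 : ((x : H ⧸ M)) ^ (p * j) = (x : H ⧸ M) := by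
    have : ((x : H ⧸ M)) = (((x ^ p) ^ j * m : H) : H ⧸ M) := congrArg _ e.symm
    rw [QuotientGroup.mk_mul, (QuotientGroup.eq_one_iff m).2 hm, mul_one, ← pow_mul,
      QuotientGroup.mk_pow] at this
    exact this.symm
  have e2 : ∀ n : ℕ, ((x : H ⧸ M)) ^ ((p * j) ^ n) = (x : H ⧸ M) := by
    intro n
    induction n with
    | zero => simp
    | succ n ih => rw [pow_succ, pow_mul, ih, e1]
  obtain ⟨n, hn'⟩ := hH.to_quotient M (x : H ⧸ M)
  have e3 := e2 n
  rw [mul_pow, pow_mul, hn', one_pow] at e3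
  exact hx (M.pow_mem ((QuotientGroup.eq_one_iff x).1 e3.symm) p)

theorem gens_of_pow [Finite H] (hH : IsPGroup p H) (k : ℕ)
    (h : Nat.card H ≤ p ^ k * (Set.range (fun x : H => x ^ p)).ncard) :
    ∃ Y : Finset H, Y.card ≤ k ∧ closure (Y : Set H) = ⊤ := by
  obtain ⟨Y, hY, e⟩ := exists_gens hH k (frattini H) (by
    refine h.trans (Nat.mul_le_mul_left _ ?_)
    rw [← SetLike.coe_sort_coe, Nat.card_coe_set_eq]
    apply Set.ncard_le_ncard _ (Set.toFinite _)
    rintro _ ⟨x, rfl⟩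
    exact pow_mem_frattini hH x)
  exact ⟨Y, hY, frattini_nongenerating e⟩

theorem exists_central [Finite H] (hH : IsPGroup p H) (N : Subgroup H) [N.Normal] (hN : N ≠ ⊥) :
    ∃ z ∈ N, z ≠ 1 ∧ ∀ g, g * z = z * g := by
  have hd : p ∣ Nat.card N := by
    rcases (hH.to_subgroup N).card_eq_or_dvd with h | h
    · exact (hN (Subgroup.card_eq_one.1 h)).elim
    · exact h
  obtain ⟨b, hb, hne⟩ :=
    (hH.of_equiv ConjAct.toConjAct).exists_fixed_point_of_prime_dvd_card_of_fixed_point N hd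
      (a := 1) (fun g => smul_one g)
  refine ⟨b, b.2, fun h => hne (Subtype.ext h.symm), fun g => ?_⟩
  have : g * b * g⁻¹ = b := congrArg Subtype.val (hb (ConjAct.toConjAct g))
  exact mul_inv_eq_iff_eq_mul.1 this

theorem exists_self_centralizing [Finite H] (hH : IsPGroup p H) :
    ∃ A : Subgroup H, A.Normal ∧ (∀ a ∈ A, ∀ b ∈ A, a * b = b * a) ∧
      ∀ x, (∀ a ∈ A, a * x = x * a) → x ∈ A := by
  obtain ⟨A, hA⟩ := Set.Finite.exists_maximal
    (s := {A : Subgroup H | A.Normal ∧ ∀ a ∈ A, ∀ b ∈ A, a * b = b * a}) (Set.toFinite _)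
    ⟨⊥, inferInstance, by simp⟩
  obtain ⟨hn, hc⟩ := hA.prop
  refine ⟨A, hn, hc, fun x hx => ?_⟩
  by_contra hxA
  have hne : (centralizer (A : Set H)).map (QuotientGroup.mk' A) ≠ ⊥ := by
    intro e
    have : QuotientGroup.mk' A x ∈ (centralizer (A : Set H)).map (QuotientGroup.mk' A) :=
      mem_map_of_mem _ (mem_centralizer_iff.2 hx)
    rw [e, Subgroup.mem_bot] at this
    exact hxA ((QuotientGroup.eq_one_iff x).1 this)
  have hnm : ((centralizer (A : Set H)).map (QuotientGroup.mk' A)).Normal :=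
    Subgroup.Normal.map inferInstance _ (QuotientGroup.mk'_surjective A)
  obtain ⟨z, ⟨y, hy, rfl⟩, hz1, hzc⟩ := exists_central (hH.to_quotient A) _ hne
  have hy : ∀ a ∈ A, a * y = y * a := mem_centralizer_iff.1 hy
  have hn2 : (zpowers (QuotientGroup.mk' A y)).Normal := by
    constructor
    rintro _ ⟨k, rfl⟩ g
    have : Commute g ((QuotientGroup.mk' A y) ^ k) := Commute.zpow_right (hzc g) k
    simp only
    rw [this.eq, mul_inv_cancel_right]
    exact zpow_mem (mem_zpowers _) k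
  have hform : ∀ w ∈ (zpowers (QuotientGroup.mk' A y)).comap (QuotientGroup.mk' A),
      ∃ k : ℤ, ∃ a ∈ A, w = y ^ k * a := by
    rintro w ⟨k, hk⟩
    simp only at hk
    rw [← map_zpow] at hk
    exact ⟨k, _, QuotientGroup.eq.1 hk, by group⟩
  have hle : A ≤ (zpowers (QuotientGroup.mk' A y)).comap (QuotientGroup.mk' A) := by
    intro a ha
    have : QuotientGroup.mk' A a = 1 := (QuotientGroup.eq_one_iff a).2 ha
    rw [mem_comap, this]
    exact one_mem _
  have := hA.le_of_ge (y := (zpowers (QuotientGroup.mk' A y)).comap (QuotientGroup.mk' A))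
    ⟨hn2.comap _, by
      intro a ha b hb
      obtain ⟨k, a', ha', rfl⟩ := hform a ha
      obtain ⟨l, b', hb', rfl⟩ := hform b hb
      have c1 : Commute y a' := (hy a' ha').symm
      have c2 : Commute y b' := (hy b' hb').symm
      have c3 : Commute a' b' := hc a' ha' b' hb'
      exact Commute.mul_left (Commute.mul_right ((Commute.refl y).zpow_zpow k l) (c2.zpow_left k))
        (Commute.mul_right (c1.symm.zpow_right l) c3)⟩ hle
  exact hz1 ((QuotientGroup.eq_one_iff y).2 (this (mem_zpowers _)))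

end PGroup

section Ring

variable {R : Type} [Ring R] {p : ℕ}

theorem pow_sub_pow_form (q : ℕ) (α β : R) (hα : ∃ a, α = 1 + q • a) (hβ : ∃ b, β = 1 + q • b)
    (n : ℕ) : ∃ ψ : R →+ R, α ^ n - β ^ n = n • (α - β) + q • ψ (α - β) := by
  obtain ⟨a, ha⟩ := hα
  obtain ⟨b, hb⟩ := hβ
  have hβn : ∀ n : ℕ, ∃ c, β ^ n = 1 + q • c := by
    intro n
    induction n with
    | zero => exact ⟨0, by simp⟩
    | succ n ih =>
      obtain ⟨c, hc⟩ := ih
      refine ⟨c + b + q • (c * b), ?_⟩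
      rw [pow_succ, hc, hb]
      simp only [mul_add, add_mul, smul_add, one_mul, mul_one, smul_mul_assoc, mul_smul_comm]
      abel
  induction n with
  | zero => exact ⟨0, by simp⟩
  | succ n ih =>
    obtain ⟨ψ, hψ⟩ := ih
    obtain ⟨c, hc⟩ := hβn n
    refine ⟨n • AddMonoidHom.mulLeft a + (AddMonoidHom.mulLeft α).comp ψ +
      AddMonoidHom.mulRight c, ?_⟩
    have e : α ^ (n + 1) - β ^ (n + 1) = α * (α ^ n - β ^ n) + (α - β) * β ^ n := by
      rw [pow_succ', pow_succ']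
      noncomm_ring
    rw [e, hψ, hc]
    generalize α - β = z
    simp only [AddMonoidHom.add_apply, AddMonoidHom.nsmul_apply, AddMonoidHom.coe_mulLeft,
      AddMonoidHom.comp_apply, AddMonoidHom.mulRight_apply, mul_add, smul_add, mul_one,
      mul_smul_comm, succ_nsmul]
    have e2 : α * z = z + q • (a * z) := by
      rw [ha, add_mul, one_mul, smul_mul_assoc]
    rw [e2, smul_add, smul_comm n q]
    abel

theorem smul_sub_eq_zero (N : ℕ) (hN : ∀ r : R, p ^ N • r = 0) (α β : R)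
    (hα : ∃ a, α = 1 + p ^ 2 • a) (hβ : ∃ b, β = 1 + p ^ 2 • b) (h : α ^ p = β ^ p) :
    p • (α - β) = 0 := by
  obtain ⟨ψ, hψ⟩ := pow_sub_pow_form (p ^ 2) α β hα hβ p
  rw [h, sub_self] at hψ
  generalize α - β = z at hψ ⊢
  have h1 : p • z = p • (-ψ) (p • z) := by
    rw [map_nsmul, smul_smul, ← pow_two, AddMonoidHom.neg_apply, smul_neg]
    exact eq_neg_of_add_eq_zero_left hψ.symm
  generalize p • z = w at h1 ⊢
  have h2 : ∀ m : ℕ, ∃ χ : R →+ R, w = p ^ m • χ w := by
    intro m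
    induction m with
    | zero => exact ⟨AddMonoidHom.id R, by simp⟩
    | succ m ih =>
      obtain ⟨χ, hχ⟩ := ih
      refine ⟨χ.comp (-ψ), ?_⟩
      rw [pow_succ, mul_smul, AddMonoidHom.comp_apply, ← map_nsmul, ← h1]
      exact hχ
  obtain ⟨χ, hχ⟩ := h2 N
  rw [hχ, hN]

theorem card_le_of_ring [Finite R] {H : Type} [Group H] [Finite H] (N t : ℕ)
    (hN : ∀ r : R, p ^ N • r = 0) (ht : {r : R | p • r = 0}.ncard ≤ p ^ t)
    (ρ : H →* R) (hρ : Injective ρ) :
    Nat.card H ≤ p ^ (3 * t) * (Set.range (fun x : H => x ^ p)).ncard := by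
  classical
  let D : AddSubgroup R := (nsmulAddMonoidHom (p ^ 2) : R →+ R).range
  have h1 : (Set.univ : Set R).ncard ≤
      (Set.range (fun r : R => p • r)).ncard * {r : R | p • r = 0}.ncard := by
    refine ncard_le_mul _ _ _ (Set.toFinite _) (Set.toFinite _) (fun r : R => p • r)
      (fun a _ => ⟨a, rfl⟩) (fun a0 a => a - a0) ?_ ?_
    · intro a0 _ a _ e
      simp only [Set.mem_ofPred_eq, smul_sub] at e ⊢
      rw [e, sub_self]
    · intro a0 a a' e
      simpa using e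
  have h2 : (Set.range (fun r : R => p • r)).ncard ≤
      (D : Set R).ncard * {r : R | p • r = 0}.ncard := by
    refine ncard_le_mul _ _ _ (Set.toFinite _) (Set.toFinite _) (fun r : R => p • r)
      ?_ (fun a0 a => a - a0) ?_ ?_
    · rintro _ ⟨a, rfl⟩
      exact ⟨a, by simp [pow_two, mul_smul]⟩
    · intro a0 _ a _ e
      simp only [Set.mem_ofPred_eq, smul_sub] at e ⊢
      rw [e, sub_self]
    · intro a0 a a' e
      simpa using e
  have h3 : Nat.card (R ⧸ D) ≤ p ^ t * p ^ t := by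
    have e := D.card_eq_card_quotient_mul_card_addSubgroup
    rw [Set.ncard_univ, e] at h1
    have e' : Nat.card D = (D : Set R).ncard := by
      rw [← Nat.card_coe_set_eq]; rfl
    have hpos : 0 < Nat.card D := Nat.card_pos
    rw [← e'] at h2
    have : Nat.card (R ⧸ D) * Nat.card D ≤ (p ^ t * p ^ t) * Nat.card D := by
      calc Nat.card (R ⧸ D) * Nat.card D ≤ _ := h1
        _ ≤ (Nat.card D * p ^ t) * p ^ t :=
          Nat.mul_le_mul (h2.trans (Nat.mul_le_mul_left _ ht)) ht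
        _ = _ := by ring
    exact Nat.le_of_mul_le_mul_right this hpos
  let H1 : Set H := {x | ∃ a, ρ x = 1 + p ^ 2 • a}
  have h4 : (Set.univ : Set H).ncard ≤ (Set.univ : Set (R ⧸ D)).ncard * H1.ncard := by
    refine ncard_le_mul _ _ _ (Set.toFinite _) (Set.toFinite _) (fun x : H => ((ρ x : R) : R ⧸ D))
      (fun _ _ => trivial) (fun a0 a => a0⁻¹ * a) ?_ ?_
    · intro a0 _ a _ e
      obtain ⟨c, hc⟩ := QuotientAddGroup.eq.1 e.symm
      refine ⟨ρ a0⁻¹ * c, ?_⟩
      have hc' : ρ a = ρ a0 + p ^ 2 • c := by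
        have : p ^ 2 • c = -ρ a0 + ρ a := hc
        rw [this]; abel
      rw [map_mul, hc', mul_add, ← map_mul, inv_mul_cancel, map_one, mul_smul_comm]
    · intro a0 a a' e
      simpa using e
  have h5 : H1.ncard ≤ (Set.range (fun x : H => x ^ p)).ncard * {r : R | p • r = 0}.ncard := by
    refine ncard_le_mul _ _ _ (Set.toFinite _) (Set.toFinite _) (fun x : H => x ^ p)
      (fun a _ => ⟨a, rfl⟩) (fun a0 a => ρ a - ρ a0) ?_ ?_
    · intro a0 h0 a ha e
      refine smul_sub_eq_zero N hN _ _ ha h0 ?_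
      rw [← map_pow, ← map_pow]
      exact congrArg ρ e
    · intro a0 a a' e
      exact hρ (by simpa using e)
  rw [Set.ncard_univ, Set.ncard_univ] at h4
  calc Nat.card H ≤ _ := h4
    _ ≤ (p ^ t * p ^ t) * ((Set.range (fun x : H => x ^ p)).ncard * p ^ t) :=
      Nat.mul_le_mul h3 (h5.trans (Nat.mul_le_mul_left _ ht))
    _ = _ := by ring

end Ring

theorem rank_bound {Q : Type} [Group Q] [Finite Q] {p : ℕ} [hp : Fact p.Prime]
    (hQ : IsPGroup p Q) :
    ∃ (E : Subgroup Q) (r : ℕ) (Y : Finset Q), (∀ x ∈ E, ∀ y ∈ E, x * y = y * x) ∧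
      (∀ x ∈ E, x ^ p = 1) ∧ Nat.card E = p ^ r ∧ Y.card ≤ 4 * r ^ 2 ∧
      closure (Y : Set Q) = ⊤ := by
  classical
  obtain ⟨A, hn, hc, hcent⟩ := exists_self_centralizing hQ
  let _ : CommGroup A :=
    { (inferInstance : Group A) with
      mul_comm := fun a b => Subtype.ext (hc a a.2 b b.2) }
  have hA : IsPGroup p A := hQ.to_subgroup A
  let E0 : Subgroup A := (powMonoidHom p : A →* A).ker
  obtain ⟨s, hs⟩ := IsPGroup.iff_card.1 (hA.to_subgroup E0)
  obtain ⟨N, hN⟩ := IsPGroup.iff_card.1 hA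
  obtain ⟨YA, hYA, hYA'⟩ := gens_of_pow hA s (by
    rw [← hs, ← E0.card_mul_index, Subgroup.index_ker, ← Nat.card_coe_set_eq]
    rfl)
  have hfin : Finite (AddMonoid.End (Additive A)) :=
    Finite.of_injective (fun f : Additive A →+ Additive A => (f : Additive A → Additive A))
      DFunLike.coe_injective
  have hNR : ∀ r : AddMonoid.End (Additive A), p ^ N • r = 0 := by
    intro r
    refine AddMonoidHom.ext fun x => ?_
    change (Additive.toMul (r x)) ^ (p ^ N) = 1
    rw [← hN]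
    exact pow_card_eq_one'
  have htR : {r : AddMonoid.End (Additive A) | p • r = 0}.ncard ≤ p ^ (s * s) := by
    rw [← Nat.card_coe_set_eq]
    let F : {r : AddMonoid.End (Additive A) | p • r = 0} → (YA → E0) := fun r y =>
      ⟨Additive.toMul (r.1 (Additive.ofMul y.1)), by
        have h : p • r.1 = 0 := r.2
        exact congrArg (fun f : AddMonoid.End (Additive A) => f (Additive.ofMul y.1)) h⟩
    have hF : Injective F := by
      intro r r' e
      apply Subtype.ext
      have : (MonoidHom.toAdditive.symm r.1 : A →* A) = MonoidHom.toAdditive.symm r'.1 := by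
        refine MonoidHom.eq_of_eqOn_dense hYA' ?_
        intro y hy
        exact congrArg Subtype.val (congrFun e ⟨y, hy⟩)
      exact MonoidHom.toAdditive.symm.injective this
    refine (Nat.card_le_card_of_injective F hF).trans ?_
    rw [Nat.card_fun, hs, Nat.card_eq_fintype_card, Fintype.card_coe, ← pow_mul]
    exact Nat.pow_le_pow_right hp.out.pos (Nat.mul_le_mul_left _ hYA)
  let ρ : Q →* AddMonoid.End (Additive A) :=
    { toFun := fun x => MonoidHom.toAdditive (MulAut.conjNormal x : MulAut A).toMonoidHom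
      map_one' := by
        rw [map_one]
        rfl
      map_mul' := by
        intro x y
        rw [map_mul]
        rfl }
  have hρ : ∀ x, ρ x = 1 ↔ x ∈ A := by
    intro x
    constructor
    · intro h
      apply hcent
      intro a ha
      have : x * a * x⁻¹ = a :=
        congrArg (fun f : AddMonoid.End (Additive A) =>
          ((Additive.toMul (f (Additive.ofMul (⟨a, ha⟩ : A))) : A) : Q)) h
      exact (mul_inv_eq_iff_eq_mul.1 this).symm
    · intro h
      refine AddMonoidHom.ext fun a => Subtype.ext ?_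
      change x * (Additive.toMul a : A) * x⁻¹ = (Additive.toMul a : A)
      rw [hc x h _ (Additive.toMul a).2, mul_inv_cancel_right]
  let ρ' : Q ⧸ A →* AddMonoid.End (Additive A) := QuotientGroup.lift A ρ (fun x hx => (hρ x).2 hx)
  have hρ' : Injective ρ' := by
    rw [injective_iff_map_eq_one]
    intro x hx
    obtain ⟨x, rfl⟩ := QuotientGroup.mk_surjective x
    exact (QuotientGroup.eq_one_iff x).2 ((hρ x).1 hx)
  obtain ⟨YQ, hYQ, hYQ'⟩ := gens_of_pow (hQ.to_quotient A) (3 * (s * s))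
    (card_le_of_ring N (s * s) hNR htR ρ' hρ')
  refine ⟨E0.map A.subtype, s, YQ.image Quotient.out ∪ YA.image Subtype.val, ?_, ?_, ?_, ?_, ?_⟩
  · rintro _ ⟨x, -, rfl⟩ _ ⟨y, -, rfl⟩
    exact hc x x.2 y y.2
  · rintro _ ⟨x, hx, rfl⟩
    exact congrArg Subtype.val (show x ^ p = 1 from hx)
  · rw [Subgroup.card_map_of_injective A.subtype_injective, hs]
  · have h1 := Finset.card_union_le (YQ.image Quotient.out) (YA.image Subtype.val)
    have h2 := Finset.card_image_le (s := YQ) (f := Quotient.out)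
    have h3 := Finset.card_image_le (s := YA) (f := Subtype.val)
    have h4 : s ≤ s * s := Nat.le_mul_self s
    nlinarith
  · set M := closure (((YQ.image Quotient.out ∪ YA.image Subtype.val : Finset Q)) : Set Q)
    have hAM : A ≤ M := by
      intro a ha
      have : (⊤ : Subgroup A) ≤ M.comap A.subtype := by
        rw [← hYA', closure_le]
        intro y hy
        apply Subgroup.subset_closure
        simp only [Finset.coe_union, Finset.coe_image]
        exact Or.inr ⟨y, hy, rfl⟩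
      exact this (mem_top (⟨a, ha⟩ : A))
    have hM : M.map (QuotientGroup.mk' A) = ⊤ := by
      rw [eq_top_iff, ← hYQ', closure_le]
      intro y hy
      refine ⟨y.out, subset_closure ?_, QuotientGroup.out_eq' y⟩
      simp only [Finset.coe_union, Finset.coe_image]
      exact Or.inl ⟨y, hy, rfl⟩
    have := congrArg (comap (QuotientGroup.mk' A)) hM
    rwa [comap_map_eq, QuotientGroup.ker_mk', comap_top, sup_eq_left.2 hAM] at this

end Pool.Agent.MP_a1dcd4_co

end

section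

/-!
Greedy choice of subgroups of an elementary abelian group in general position.
-/

set_option autoImplicit false

namespace Pool.Agent.MP_a1dcd4_co

open Function Subgroup

variable {p : ℕ} [hp : Fact p.Prime]

theorem card_sup_zpowers_le {E : Type} [CommGroup E] [Finite E] (he : ∀ x : E, x ^ p = 1)
    (K : Subgroup E) (x : E) : Nat.card (K ⊔ zpowers x : Subgroup E) ≤ p * Nat.card K := by
  have h1 : Nat.card (K ⊔ zpowers x : Subgroup E) ≤ Nat.card K * Nat.card (zpowers x) := by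
    rw [← SetLike.coe_sort_coe, Subgroup.mul_normal]
    exact Set.natCard_mul_le
  rw [Nat.card_zpowers] at h1
  have h2 := orderOf_le_of_pow_eq_one hp.out.pos (he x)
  rw [mul_comm]
  exact h1.trans (Nat.mul_le_mul_left _ h2)

theorem avoid_comm {E : Type} [CommGroup E] [Finite E] (he : ∀ x : E, x ^ p = 1)
    (F : Finset E) (hF : 1 ∉ F) (k : ℕ) (h : p ^ k * (F.card + 1) < Nat.card E) :
    ∃ K : Subgroup E, Nat.card K = p ^ k ∧ ∀ x ∈ K, x ∉ F := by
  classical
  have hE : IsPGroup p E := fun x => ⟨1, by simpa using he x⟩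
  have := Fintype.ofFinite E
  induction k with
  | zero =>
    refine ⟨⊥, by simp, fun x hx => ?_⟩
    rw [Subgroup.mem_bot.1 hx]
    exact hF
  | succ k ih =>
    obtain ⟨K, hK, hKF⟩ := ih (lt_of_le_of_lt
      (Nat.mul_le_mul_right _ (Nat.pow_le_pow_right hp.out.pos (Nat.le_succ k))) h)
    let B : Finset E := (insert 1 F).biUnion
      (fun f => Finset.univ.filter (fun y => y ∈ (K ⊔ zpowers f : Subgroup E)))
    have hB : B.card < (Finset.univ : Finset E).card := by
      have h1 : B.card ≤ (insert 1 F).card * p ^ (k + 1) := by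
        apply Finset.card_biUnion_le_card_mul
        intro f _
        have := card_sup_zpowers_le he K f
        rw [hK, ← pow_succ', Nat.card_eq_fintype_card, Fintype.card_subtype] at this
        exact this
      rw [Finset.card_insert_of_notMem hF] at h1
      rw [Finset.card_univ, ← Nat.card_eq_fintype_card]
      calc B.card ≤ _ := h1
        _ = p ^ (k + 1) * (F.card + 1) := by ring
        _ < _ := h
    obtain ⟨x, -, hx⟩ := Finset.exists_mem_notMem_of_card_lt_card hB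
    have hx' : ∀ f ∈ insert 1 F, x ∉ (K ⊔ zpowers f : Subgroup E) := by
      intro f hf hxf
      exact hx (Finset.mem_biUnion.2 ⟨f, hf, Finset.mem_filter.2 ⟨Finset.mem_univ _, hxf⟩⟩)
    have hstep : ∀ y, y ∉ K → Nat.card (K ⊔ zpowers y : Subgroup E) = p ^ (k + 1) := by
      intro y hy
      have hlt : K < K ⊔ zpowers y := by
        refine lt_of_le_of_ne le_sup_left fun e => hy ?_
        rw [e]
        exact Subgroup.mem_sup_right (mem_zpowers y)
      have h1 := mul_card_le_of_lt (hE.to_subgroup _) hlt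
      have h2 := card_sup_zpowers_le he K y
      rw [hK, ← pow_succ'] at h1 h2
      exact le_antisymm h2 h1
    have hxK : x ∉ K := fun hh => hx' 1 (Finset.mem_insert_self _ _) (Subgroup.mem_sup_left hh)
    refine ⟨K ⊔ zpowers x, hstep x hxK, fun f hf hfF => ?_⟩
    have hfK : f ∉ K := fun hh => hKF f hh hfF
    have hle : K ⊔ zpowers f ≤ K ⊔ zpowers x := sup_le le_sup_left (zpowers_le_of_mem hf)
    have := Subgroup.eq_of_le_of_card_ge hle (by rw [hstep x hxK, hstep f hfK])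
    apply hx' f (Finset.mem_insert_of_mem hfF)
    rw [this]
    exact Subgroup.mem_sup_right (mem_zpowers x)

variable {G : Type} [Group G] [Finite G]

theorem avoid_sub (E : Subgroup G) (hc : ∀ x ∈ E, ∀ y ∈ E, x * y = y * x)
    (he : ∀ x ∈ E, x ^ p = 1) (F : Finset G) (hF : 1 ∉ F) (k : ℕ)
    (h : p ^ k * (F.card + 1) < Nat.card E) :
    ∃ K : Subgroup G, K ≤ E ∧ Nat.card K = p ^ k ∧ ∀ x ∈ K, x ∉ F := by
  classical
  let _ : CommGroup E :=
    { (inferInstance : Group E) with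
      mul_comm := fun a b => Subtype.ext (hc a a.2 b b.2) }
  obtain ⟨K, hK, hKF⟩ := avoid_comm (E := E) (p := p) (fun x => Subtype.ext (he x x.2))
    (F.subtype (· ∈ E)) (by simpa using hF) k (by
      refine lt_of_le_of_lt (Nat.mul_le_mul_left _ (Nat.succ_le_succ ?_)) h
      rw [Finset.card_subtype]
      exact Finset.card_filter_le _ _)
  refine ⟨K.map E.subtype, map_subtype_le K, ?_, ?_⟩
  · rw [Subgroup.card_map_of_injective E.subtype_injective, hK]
  · rintro _ ⟨x, hx, rfl⟩ hxF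
    exact hKF x hx (Finset.mem_subtype.2 hxF)

theorem avoid_family (E : Subgroup G) (hc : ∀ x ∈ E, ∀ y ∈ E, x * y = y * x)
    (he : ∀ x ∈ E, x ^ p = 1) (Γ : Finset G) (hΓ : ∀ g ∈ Γ, g⁻¹ ∈ Γ) {J : Type} (s : Finset J)
    (k : ℕ) (h : p ^ k * (s.card * (Γ.card * p ^ k) + 1) < Nat.card E) :
    ∃ K : J → Subgroup G, (∀ j, K j ≤ E) ∧ (∀ j ∈ s, Nat.card (K j) = p ^ k) ∧
      ∀ i ∈ s, ∀ j ∈ s, i ≠ j → ∀ g ∈ Γ, ∀ x ∈ K i, g * x * g⁻¹ ∈ K j → x = 1 := by
  classical
  have := Fintype.ofFinite G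
  induction s using Finset.induction_on with
  | empty => exact ⟨fun _ => ⊥, fun _ => bot_le, by simp, by simp⟩
  | insert a s ha ih =>
    rw [Finset.card_insert_of_notMem ha] at h
    have h' : p ^ k * (s.card * (Γ.card * p ^ k) + 1) < Nat.card E :=
      lt_of_le_of_lt (Nat.mul_le_mul_left _ (Nat.succ_le_succ
        (Nat.mul_le_mul_right _ (Nat.le_succ _)))) h
    obtain ⟨K, hKE, hK, hKK⟩ := ih h'
    let F : Finset G := (s.biUnion (fun j => Γ.biUnion (fun g =>
      (Finset.univ.filter (fun y => y ∈ K j)).image (fun y => g * y * g⁻¹)))).erase 1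
    have hF : F.card ≤ s.card * (Γ.card * p ^ k) := by
      refine Finset.card_erase_le.trans ?_
      apply Finset.card_biUnion_le_card_mul
      intro j hj
      apply Finset.card_biUnion_le_card_mul
      intro g _
      refine Finset.card_image_le.trans ?_
      have := hK j hj
      rw [Nat.card_eq_fintype_card, Fintype.card_subtype] at this
      exact this.le
    obtain ⟨K0, hK0E, hK0, hK0F⟩ := avoid_sub E hc he F (Finset.notMem_erase _ _) k
      (lt_of_le_of_lt (Nat.mul_le_mul_left _ (Nat.succ_le_succ hF)) h')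
    have key : ∀ j ∈ s, ∀ g ∈ Γ, ∀ x ∈ K j, g * x * g⁻¹ ∈ K0 → x = 1 := by
      intro j hj g hg x hx hx0
      by_contra hne
      apply hK0F _ hx0
      refine Finset.mem_erase.2 ⟨by simpa using hne, ?_⟩
      refine Finset.mem_biUnion.2 ⟨j, hj, Finset.mem_biUnion.2 ⟨g, hg, ?_⟩⟩
      exact Finset.mem_image.2 ⟨x, Finset.mem_filter.2 ⟨Finset.mem_univ _, hx⟩, rfl⟩
    have hne : ∀ j ∈ s, update K a K0 j = K j := fun j hj =>
      update_of_ne (fun e : j = a => ha (e ▸ hj)) _ _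
    have hself : update K a K0 a = K0 := update_self _ _ _
    refine ⟨update K a K0, ?_, ?_, ?_⟩
    · intro j
      by_cases hj : j = a
      · subst hj
        simpa using hK0E
      · rw [update_of_ne hj]
        exact hKE j
    · intro j hj
      rcases Finset.mem_insert.1 hj with rfl | hj
      · simpa using hK0
      · rw [hne j hj]
        exact hK j hj
    · intro i hi j hj hij g hg x hx hx'
      rcases Finset.mem_insert.1 hi with rfl | hi'
      · rcases Finset.mem_insert.1 hj with rfl | hj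
        · exact (hij rfl).elim
        · rw [hself] at hx
          rw [hne j hj] at hx'
          have := key j hj g⁻¹ (hΓ g hg) _ hx' (by simpa [mul_assoc] using hx)
          simpa using this
      · rw [hne i hi'] at hx
        rcases Finset.mem_insert.1 hj with rfl | hj
        · rw [hself] at hx'
          exact key i hi' g hg x hx hx'
        · rw [hne j hj] at hx'
          exact hKK i hi' j hj hij g hg x hx hx'

theorem two_pow_big (m : ℕ) (hm : 21 ≤ m) : 8 * (17 * m + 28) ^ 2 + 2 ≤ 2 ^ m := by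
  induction m, hm using Nat.le_induction with
  | base => norm_num
  | succ m hm ih =>
    rw [pow_succ 2 m]
    nlinarith

/-- the subgroups attached to the generators belonging to one prime -/
theorem prime_family (E : Subgroup G) (hc : ∀ x ∈ E, ∀ y ∈ E, x * y = y * x)
    (he : ∀ x ∈ E, x ^ p = 1) (r : ℕ) (hE : Nat.card E = p ^ r) (Y : Finset G)
    (hY : Y.card ≤ 4 * r ^ 2) (hr : 369 ≤ r ∨ p = 2) :
    ∃ K : G × Bool → Subgroup G, (∀ j, K j ≤ E) ∧
      (∀ z ∈ Y, z ≠ 1 → ∀ j, z ∉ K j) ∧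
      (∀ z ∈ Y, ∀ z' ∈ Y, z ≠ z' → ∀ j j', ∀ k ∈ K j, ∀ k' ∈ K j', k * z ≠ k' * z') ∧
      (∀ z ∈ Y, ∀ z' ∈ Y, ∀ e e', (z, e) ≠ (z', e') → ∀ x ∈ K (z, e), x ∈ K (z', e') → x = 1) ∧
      (∀ z ∈ Y, ∀ z' ∈ Y, ∀ e e', (z, e) ≠ (z', e') → ∀ k ∈ K (z, e), ∀ k' ∈ K (z', e'),
        z⁻¹ * k * z = z'⁻¹ * k' * z' → k = 1) ∧
      (∀ z ∈ Y, ∀ e, (p + 2 * Y.card + 1) ^ 6 ≤ (8 * 369 ^ 2 + 3) ^ 6 * Nat.card (K (z, e))) := by
  classical
  by_cases hr' : 369 ≤ r
  swap
  · have hp2 : p = 2 := hr.resolve_left hr'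
    refine ⟨fun _ => ⊥, fun _ => bot_le, ?_, ?_, ?_, ?_, ?_⟩
    · intro z _ hz j hj
      exact hz (Subgroup.mem_bot.1 hj)
    · intro z _ z' _ hz j j' k hk k' hk'
      rw [Subgroup.mem_bot.1 hk, Subgroup.mem_bot.1 hk']
      simpa using hz
    · intro z _ z' _ e e' _ x hx _
      exact Subgroup.mem_bot.1 hx
    · intro z _ z' _ e e' _ k hk _ _ _
      exact Subgroup.mem_bot.1 hk
    · intro z _ e
      rw [Subgroup.card_bot, mul_one]
      apply Nat.pow_le_pow_left
      have : r ^ 2 ≤ 369 ^ 2 := Nat.pow_le_pow_left (by omega) 2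
      omega
  obtain ⟨m, hm1, hm2, hm3⟩ : ∃ m, 21 ≤ m ∧ 17 * m + 12 ≤ r ∧ r ≤ 17 * m + 28 :=
    ⟨(r - 12) / 17, by omega, by omega, by omega⟩
  have hp2 : 2 ≤ p := hp.out.two_le
  set n := Y.card with hn
  have hB : 2 * n + 2 ≤ p ^ m := by
    have h1 := two_pow_big m hm1
    have h2 : r ^ 2 ≤ (17 * m + 28) ^ 2 := Nat.pow_le_pow_left hm3 2
    have h3 : 2 ^ m ≤ p ^ m := Nat.pow_le_pow_left hp2 m
    omega
  let Γ : Finset G := (Y ×ˢ Y).image (fun a => a.1 * a.2⁻¹)
  have hΓc : Γ.card ≤ n * n := by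
    refine Finset.card_image_le.trans ?_
    rw [Finset.card_product]
  have hΓm : ∀ a ∈ Y, ∀ b ∈ Y, a * b⁻¹ ∈ Γ := fun a ha b hb =>
    Finset.mem_image.2 ⟨(a, b), Finset.mem_product.2 ⟨ha, hb⟩, rfl⟩
  have hΓ : ∀ g ∈ Γ, g⁻¹ ∈ Γ := by
    intro g hg
    obtain ⟨⟨a, b⟩, hab, rfl⟩ := Finset.mem_image.1 hg
    obtain ⟨ha, hb⟩ := Finset.mem_product.1 hab
    simpa using hΓm b hb a ha
  obtain ⟨E', hE'E, hE', hE'F⟩ := avoid_sub E hc he ((Y ∪ Γ).erase 1) (Finset.notMem_erase _ _)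
    (15 * m + 12) (by
      have h1 : ((Y ∪ Γ).erase 1).card ≤ n + n * n :=
        Finset.card_erase_le.trans ((Finset.card_union_le _ _).trans (Nat.add_le_add_left hΓc _))
      have h2 : ((Y ∪ Γ).erase 1).card + 1 < p ^ m * p ^ m := by nlinarith
      rw [hE]
      calc p ^ (15 * m + 12) * (((Y ∪ Γ).erase 1).card + 1) < p ^ (15 * m + 12) * (p ^ m * p ^ m) :=
            Nat.mul_lt_mul_of_pos_left h2 (by positivity)
        _ = p ^ (17 * m + 12) := by ring
        _ ≤ p ^ r := Nat.pow_le_pow_right hp.out.pos hm2)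
  obtain ⟨K, hKE, hK, hKK⟩ := avoid_family E' (fun x hx y hy => hc x (hE'E hx) y (hE'E hy))
    (fun x hx => he x (hE'E hx)) Γ hΓ (Y ×ˢ (Finset.univ : Finset Bool)) (6 * m + 6) (by
      rw [hE', Finset.card_product, Finset.card_univ, Fintype.card_bool]
      have hq : 1 ≤ p ^ (6 * m + 6) := Nat.one_le_pow _ _ hp.out.pos
      have h1 : n * 2 * (n * n) + 1 < p ^ m * p ^ m * p ^ m := by
        have : (2 * n + 2) * (2 * n + 2) * (2 * n + 2) ≤ p ^ m * p ^ m * p ^ m :=
          Nat.mul_le_mul (Nat.mul_le_mul hB hB) hB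
        nlinarith [Nat.zero_le n, Nat.zero_le (n * n), Nat.zero_le (n * n * n)]
      have h2 : n * 2 * (Γ.card * p ^ (6 * m + 6)) + 1 <
          p ^ m * p ^ m * p ^ m * p ^ (6 * m + 6) := by
        calc n * 2 * (Γ.card * p ^ (6 * m + 6)) + 1
            ≤ n * 2 * ((n * n) * p ^ (6 * m + 6)) + p ^ (6 * m + 6) :=
              Nat.add_le_add (Nat.mul_le_mul_left _ (Nat.mul_le_mul_right _ hΓc)) hq
          _ = (n * 2 * (n * n) + 1) * p ^ (6 * m + 6) := by ring
          _ < _ := Nat.mul_lt_mul_of_pos_right h1 hq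
      calc p ^ (6 * m + 6) * (n * 2 * (Γ.card * p ^ (6 * m + 6)) + 1)
          < p ^ (6 * m + 6) * (p ^ m * p ^ m * p ^ m * p ^ (6 * m + 6)) :=
            Nat.mul_lt_mul_of_pos_left h2 hq
        _ = p ^ (15 * m + 12) := by ring)
  have hmem : ∀ z ∈ Y, ∀ e : Bool, (z, e) ∈ Y ×ˢ (Finset.univ : Finset Bool) := fun z hz e =>
    Finset.mem_product.2 ⟨hz, Finset.mem_univ _⟩
  refine ⟨K, fun j => (hKE j).trans hE'E, ?_, ?_, ?_, ?_, ?_⟩
  · intro z hz hz1 j hj
    exact hE'F z (hKE j hj) (Finset.mem_erase.2 ⟨hz1, Finset.mem_union_left _ hz⟩)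
  · intro z hz z' hz' hne j j' k hk k' hk' e
    have h1 : z' * z⁻¹ = k'⁻¹ * k := by
      rw [eq_inv_mul_iff_mul_eq, ← mul_assoc, ← e, mul_inv_cancel_right]
    apply hE'F (z' * z⁻¹) (h1 ▸ E'.mul_mem (E'.inv_mem (hKE j' hk')) (hKE j hk))
    refine Finset.mem_erase.2 ⟨?_, Finset.mem_union_right _ (hΓm z' hz' z hz)⟩
    intro h2
    exact hne (mul_inv_eq_one.1 h2).symm
  · intro z hz z' hz' e e' hne x hx hx'
    exact hKK _ (hmem z hz e) _ (hmem z' hz' e') hne _ (hΓm z hz z hz) x hx (by simpa using hx')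
  · intro z hz z' hz' e e' hne k hk k' hk' h
    refine hKK _ (hmem z hz e) _ (hmem z' hz' e') hne _ (hΓm z' hz' z hz) k hk ?_
    have : z' * z⁻¹ * k * (z' * z⁻¹)⁻¹ = k' := by
      calc z' * z⁻¹ * k * (z' * z⁻¹)⁻¹ = z' * (z⁻¹ * k * z) * z'⁻¹ := by group
        _ = k' := by rw [h]; group
    rw [this]
    exact hk'
  · intro z hz e
    rw [hK _ (hmem z hz e)]
    have h1 : p + 2 * n + 1 ≤ p * p ^ m := by nlinarith
    calc (p + 2 * n + 1) ^ 6 ≤ (p * p ^ m) ^ 6 := Nat.pow_le_pow_left h1 6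
      _ = p ^ (6 * m + 6) := by ring
      _ ≤ _ := Nat.le_mul_of_pos_left _ (by norm_num)

end Pool.Agent.MP_a1dcd4_co

end

section

/-!
One line type for a set of generators whose orders are powers of distinct odd primes.
-/

set_option autoImplicit false

namespace Pool.Agent.MP_a1dcd4_co

open Function Subgroup

variable {G : Type} [Group G]

/-- no element of `U` lies in the subgroup generated by the other elements -/
def Indep (U : Set G) : Prop := ∀ x ∈ U, x ∉ closure (U \ {x})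

theorem coprime_orderOf {u : G} {p n c : ℕ} (hp : p.Prime) (hu : u ^ (p ^ n) = 1)
    (hc : ¬ p ∣ c) : c.Coprime (orderOf u) :=
  (((Nat.Prime.coprime_iff_not_dvd hp).2 hc).symm.pow_right n).coprime_dvd_right
    (orderOf_dvd_of_pow_eq_one hu)

theorem exponent_unique_aux {w u : G} {p n : ℕ} (hp : p.Prime) (hu : u ^ (p ^ n) = 1)
    (hw : w ^ 2 ≠ 1) {a b : ℕ} (hab : b < a) (ha : a < p) (h1 : (w * u ^ a) ^ 2 = 1)
    (h2 : (w * u ^ b) ^ 2 = 1) : False := by
  obtain ⟨c, rfl⟩ := Nat.exists_eq_add_of_lt hab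
  have hc : ¬ p ∣ c + 1 := Nat.not_dvd_of_pos_of_lt (by omega) (by omega)
  obtain ⟨m, hm⟩ := exists_pow_eq_self_of_coprime (coprime_orderOf hp hu hc)
  have e1 : u ^ b * w * u ^ b = w⁻¹ := by
    rw [pow_two] at h2
    rw [eq_inv_iff_mul_eq_one]
    calc u ^ b * w * u ^ b * w = w⁻¹ * (w * u ^ b * (w * u ^ b)) * w := by group
      _ = 1 := by rw [h2]; group
  have e2 : u ^ b * (u ^ (c + 1) * w * u ^ (c + 1)) * u ^ b = w⁻¹ := by
    rw [pow_two] at h1
    rw [eq_inv_iff_mul_eq_one]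
    calc u ^ b * (u ^ (c + 1) * w * u ^ (c + 1)) * u ^ b * w
        = w⁻¹ * (w * u ^ (b + c + 1) * (w * u ^ (b + c + 1))) * w := by group
      _ = 1 := by rw [h1]; group
  have e3 : u ^ (c + 1) * w * u ^ (c + 1) = w := by
    have := e2.trans e1.symm
    rw [mul_left_inj, mul_right_inj] at this
    exact this
  have e4 : w⁻¹ * u ^ (c + 1) * w = (u ^ (c + 1))⁻¹ := by
    rw [eq_inv_iff_mul_eq_one]
    calc w⁻¹ * u ^ (c + 1) * w * u ^ (c + 1) = w⁻¹ * (u ^ (c + 1) * w * u ^ (c + 1)) := by group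
      _ = 1 := by rw [e3]; group
  have e5 : w⁻¹ * u * w = u⁻¹ := by
    have := congrArg (fun x => x ^ m) e4
    simp only [inv_pow, hm] at this
    rw [← this]
    have h := conj_pow (i := m) (a := w⁻¹) (b := u ^ (c + 1))
    rw [inv_inv, hm] at h
    exact h.symm
  have e6 : w⁻¹ * u ^ b * w = (u ^ b)⁻¹ := by
    have h := conj_pow (i := b) (a := w⁻¹) (b := u)
    rw [inv_inv, e5, inv_pow] at h
    exact h.symm
  apply hw
  calc w ^ 2 = w * (w * ((w⁻¹ * u ^ b * w) * u ^ b)) := by rw [e6, pow_two]; group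
    _ = w * (u ^ b * w * u ^ b) := by group
    _ = 1 := by rw [e1]; group

theorem bad_card_le {w u : G} {p n : ℕ} (hp : p.Prime) (hu : u ^ (p ^ n) = 1)
    (hw : w ^ 2 ≠ 1) [DecidableEq G] :
    ((Finset.Ico 1 p).filter (fun a => (w * u ^ a) ^ 2 = 1)).card ≤ 1 := by
  rw [Finset.card_le_one]
  intro a ha b hb
  rw [Finset.mem_filter, Finset.mem_Ico] at ha hb
  rcases lt_trichotomy a b with h | h | h
  · exact (exponent_unique_aux hp hu hw h hb.1.2 hb.2 ha.2).elim
  · exact h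
  · exact (exponent_unique_aux hp hu hw h ha.1.2 ha.2 hb.2).elim

theorem pow_ne_one_of_not_dvd {u : G} {p n c : ℕ} (hp : p.Prime) (hu : u ^ (p ^ n) = 1)
    (h1 : u ≠ 1) (hc : ¬ p ∣ c) : u ^ c ≠ 1 := by
  obtain ⟨m, hm⟩ := exists_pow_eq_self_of_coprime (coprime_orderOf hp hu hc)
  intro h
  rw [h, one_pow] at hm
  exact h1 hm.symm

theorem sq_symm {s t : G} (h : (s⁻¹ * t) ^ 2 ≠ 1) : (t⁻¹ * s) ^ 2 ≠ 1 := by
  intro h'
  apply h
  have : s⁻¹ * t = (t⁻¹ * s)⁻¹ := by group
  rw [this, inv_pow, h', inv_one]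

theorem exists_exponents (π : G → ℕ) (C : Finset G)
    (hπ : ∀ x ∈ C, (π x).Prime ∧ π x ≠ 2 ∧ x ≠ 1 ∧ ∃ n, x ^ (π x ^ n) = 1)
    (hinj : Set.InjOn π C) :
    ∃ a : G → ℕ, (∀ x ∈ C, 1 ≤ a x ∧ a x < π x) ∧ ∀ x ∈ C, ∀ y ∈ C, x ≠ y →
      ((x ^ a x)⁻¹ * y ^ a y) ^ 2 ≠ 1 ∧ (((x ^ a x) ^ 2)⁻¹ * (y ^ a y) ^ 2) ^ 2 ≠ 1 := by
  classical
  induction C using Finset.induction_on_max_value π with
  | empty => exact ⟨fun _ => 0, by simp, by simp⟩
  | insert x C hx hmax ih =>
    obtain ⟨a, ha, haa⟩ := ih (fun y hy => hπ y (Finset.mem_insert_of_mem hy))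
      (hinj.mono (by simp))
    obtain ⟨hp, hp2, hx1, n, hn⟩ := hπ x (Finset.mem_insert_self _ _)
    have hpodd := hp.eq_two_or_odd.resolve_left hp2
    have hp3 := hp.two_le
    have hCcard : C.card ≤ π x / 2 - 1 := by
      rw [← Nat.card_Ico 1 (π x / 2)]
      apply Finset.card_le_card_of_injOn (fun y => π y / 2)
      · intro y hy
        have hy' : y ∈ C := hy
        obtain ⟨hq, hq2, -, -⟩ := hπ y (Finset.mem_insert_of_mem hy')
        have h1 := hq.eq_two_or_odd.resolve_left hq2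
        have h2 := hq.two_le
        have h3 := hmax y hy'
        have h4 : π y ≠ π x := fun e => hx ((hinj (by simp [hy']) (by simp) e) ▸ hy')
        simp only [Finset.coe_Ico, Set.mem_Ico]
        omega
      · intro y hy z hz e
        have hy' : y ∈ C := hy
        have hz' : z ∈ C := hz
        obtain ⟨hq, hq2, -, -⟩ := hπ y (Finset.mem_insert_of_mem hy')
        obtain ⟨hr, hr2, -, -⟩ := hπ z (Finset.mem_insert_of_mem hz')
        have h1 := hq.eq_two_or_odd.resolve_left hq2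
        have h2 := hr.eq_two_or_odd.resolve_left hr2
        apply hinj (by simp [hy']) (by simp [hz'])
        simp only at e
        omega
    let B : Finset ℕ := C.biUnion (fun y =>
      (Finset.Ico 1 (π x)).filter (fun b => ((y ^ a y)⁻¹ * x ^ b) ^ 2 = 1) ∪
      (Finset.Ico 1 (π x)).filter (fun b => (((y ^ a y) ^ 2)⁻¹ * (x ^ 2) ^ b) ^ 2 = 1))
    have hB : B.card ≤ C.card * 2 := by
      apply Finset.card_biUnion_le_card_mul
      intro y hy
      obtain ⟨hq, hq2, hy1, k, hk⟩ := hπ y (Finset.mem_insert_of_mem hy)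
      have hd2 : ¬ π y ∣ 2 := fun h => hq2 ((Nat.prime_dvd_prime_iff_eq hq Nat.prime_two).1 h)
      have hda : ¬ π y ∣ a y := Nat.not_dvd_of_pos_of_lt (ha y hy).1 (ha y hy).2
      have w1 : (y ^ a y)⁻¹ ^ 2 ≠ 1 := by
        rw [inv_pow, inv_ne_one, ← pow_mul]
        exact pow_ne_one_of_not_dvd hq hk hy1 (hq.not_dvd_mul hda hd2)
      have w2 : ((y ^ a y) ^ 2)⁻¹ ^ 2 ≠ 1 := by
        rw [inv_pow, inv_ne_one, ← pow_mul, ← pow_mul]
        exact pow_ne_one_of_not_dvd hq hk hy1 (hq.not_dvd_mul hda (hq.not_dvd_mul hd2 hd2))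
      have hn2 : (x ^ 2) ^ (π x ^ n) = 1 := by
        rw [← pow_mul, mul_comm, pow_mul, hn, one_pow]
      have b1 := bad_card_le hp hn w1
      have b2 := bad_card_le hp hn2 w2
      exact (Finset.card_union_le _ _).trans (Nat.add_le_add b1 b2)
    obtain ⟨b, hb, hbB⟩ := Finset.exists_mem_notMem_of_card_lt_card (s := B)
      (t := Finset.Ico 1 (π x)) (by
        rw [Nat.card_Ico]
        omega)
    have hb' : ∀ y ∈ C, ((y ^ a y)⁻¹ * x ^ b) ^ 2 ≠ 1 ∧
        (((y ^ a y) ^ 2)⁻¹ * (x ^ b) ^ 2) ^ 2 ≠ 1 := by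
      intro y hy
      constructor
      · intro h
        exact hbB (Finset.mem_biUnion.2 ⟨y, hy, Finset.mem_union_left _
          (Finset.mem_filter.2 ⟨hb, h⟩)⟩)
      · intro h
        refine hbB (Finset.mem_biUnion.2 ⟨y, hy, Finset.mem_union_right _
          (Finset.mem_filter.2 ⟨hb, ?_⟩)⟩)
        rw [← pow_mul x 2 b, mul_comm 2 b, pow_mul]
        exact h
    have hne : ∀ y ∈ C, update a x b y = a y := fun y hy =>
      update_of_ne (fun e : y = x => hx (e ▸ hy)) _ _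
    have hself : update a x b x = b := update_self _ _ _
    refine ⟨update a x b, ?_, ?_⟩
    · intro y hy
      rcases Finset.mem_insert.1 hy with rfl | hy'
      · rw [hself]
        exact Finset.mem_Ico.1 hb
      · rw [hne y hy']
        exact ha y hy'
    · intro y hy z hz hyz
      rcases Finset.mem_insert.1 hy with rfl | hy'
      · rcases Finset.mem_insert.1 hz with rfl | hz'
        · exact (hyz rfl).elim
        · rw [hself, hne z hz']
          exact ⟨sq_symm (hb' z hz').1, sq_symm (hb' z hz').2⟩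
      · rcases Finset.mem_insert.1 hz with rfl | hz'
        · rw [hself, hne y hy']
          exact hb' y hy'
        · rw [hne y hy', hne z hz']
          exact haa y hy' z hz' hyz

theorem Indep.one_notMem {U : Set G} (h : Indep U) : (1 : G) ∉ U :=
  fun h1 => h 1 h1 (one_mem _)

theorem Indep.sidon {U : Set G} (h : Indep U) (h2 : ∀ s ∈ U, ∀ t ∈ U, s ≠ t → (s⁻¹ * t) ^ 2 ≠ 1) :
    ∀ s ∈ U, ∀ t ∈ U, ∀ s' ∈ U, ∀ t' ∈ U, s⁻¹ * t = s'⁻¹ * t' → s⁻¹ * t = 1 ∨ s = s' := by
  intro s hs t ht s' hs' t' ht' e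
  by_contra hcon
  push Not at hcon
  obtain ⟨h3, h4⟩ := hcon
  have hst : s ≠ t := by
    rintro rfl
    exact h3 (inv_mul_cancel _)
  have h5 : t' = s := by
    by_contra h5
    apply h s hs
    have : s = t * t'⁻¹ * s' := by
      calc s = t * (s⁻¹ * t)⁻¹ := by group
        _ = t * t'⁻¹ * s' := by rw [e]; group
    have m : t * t'⁻¹ * s' ∈ closure (U \ {s}) :=
      mul_mem (mul_mem (subset_closure ⟨ht, hst.symm⟩) (inv_mem (subset_closure ⟨ht', h5⟩)))
        (subset_closure ⟨hs', h4.symm⟩)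
    rwa [← this] at m
  subst h5
  have h6 : s' = t := by
    by_contra h6
    apply h t ht
    have : t = t' * s'⁻¹ * t' := by
      calc t = t' * (t'⁻¹ * t) := by group
        _ = t' * s'⁻¹ * t' := by rw [e]; group
    have m : t' * s'⁻¹ * t' ∈ closure (U \ {t}) :=
      mul_mem (mul_mem (subset_closure ⟨hs, hst⟩) (inv_mem (subset_closure ⟨hs', h6⟩)))
        (subset_closure ⟨hs, hst⟩)
    rwa [← this] at m
  subst h6
  apply h2 t' hs s' ht hst
  rw [pow_two]
  nth_rewrite 1 [e]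
  group

theorem Indep.image {X : Set G} (h : Indep X) {C : Set G} (hC : C ⊆ X) (v : G → G)
    (h1 : ∀ x ∈ C, ∃ m : ℕ, v x = x ^ m) (h2 : ∀ x ∈ C, ∃ m : ℕ, v x ^ m = x) :
    Indep (v '' C) := by
  rintro _ ⟨x, hx, rfl⟩ hm
  apply h x (hC hx)
  have hle : closure (v '' C \ {v x}) ≤ closure (X \ {x}) := by
    rw [closure_le]
    rintro _ ⟨⟨y, hy, rfl⟩, hne⟩
    obtain ⟨m, hm⟩ := h1 y hy
    have hyx : y ≠ x := fun e => hne (by rw [e]; rfl)
    rw [hm]
    exact pow_mem (Subgroup.subset_closure (k := X \ {x}) ⟨hC hy, hyx⟩) m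
  obtain ⟨m, hm'⟩ := h2 x hx
  have := pow_mem (hle hm) m
  rwa [hm'] at this

theorem Indep.eq_of_mul_eq_sq {U : Set G} (h : Indep U) {a b c : G} (ha : a ∈ U) (hb : b ∈ U)
    (hc : c ∈ U) (e : a * b = c ^ 2) : a = b := by
  by_contra hab
  by_cases hac : a = c
  · subst hac
    rw [pow_two, mul_right_inj] at e
    exact hab e.symm
  · apply h a ha
    have : a = c ^ 2 * b⁻¹ := by rw [← e]; group
    have m : c ^ 2 * b⁻¹ ∈ closure (U \ {a}) :=
      mul_mem (pow_mem (Subgroup.subset_closure (k := U \ {a}) ⟨hc, Ne.symm hac⟩) 2)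
        (inv_mem (subset_closure ⟨hb, Ne.symm hab⟩))
    rwa [← this] at m

theorem Indep.rigid {U : Set G} (h : Indep U)
    (hcop : ∀ x ∈ U, ∀ y ∈ U, y ^ orderOf x = 1 → y = x) (φ : G → G)
    (h1 : ∀ g, ∀ s ∈ U, ∃ s' ∈ U, φ (g * s) = φ g * s')
    (h2 : ∀ g, ∀ s ∈ U, ∃ s' ∈ U, φ (g * s ^ 2) = φ g * s' ^ 2) :
    ∀ s ∈ U, ∀ g, φ (g * s) = φ g * s := by
  intro s hs
  choose σ hσ hσ' using fun g => h1 g s hs
  have hstep : ∀ g, σ (g * s) = σ g := by
    intro g
    obtain ⟨s', hs', e⟩ := h2 g s hs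
    rw [pow_two s, ← mul_assoc, hσ', hσ', mul_assoc, mul_right_inj] at e
    exact (h.eq_of_mul_eq_sq (hσ _) (hσ _) hs' e).symm
  intro g
  have hpow : ∀ m : ℕ, σ (g * s ^ m) = σ g ∧ φ (g * s ^ m) = φ g * σ g ^ m := by
    intro m
    induction m with
    | zero => simp
    | succ m ih =>
      rw [pow_succ, ← mul_assoc, hstep, hσ', ih.1, ih.2, pow_succ, mul_assoc]
      exact ⟨rfl, rfl⟩
  have := (hpow (orderOf s)).2
  rw [pow_orderOf_eq_one, mul_one, left_eq_mul] at this
  rw [hσ', hcop s hs _ (hσ g) this]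

theorem map_mul_pow (φ : G → G) (v : G) (h : ∀ g, φ (g * v) = φ g * v) (m : ℕ) (g : G) :
    φ (g * v ^ m) = φ g * v ^ m := by
  induction m with
  | zero => simp
  | succ m ih => rw [pow_succ, ← mul_assoc, h, ih, mul_assoc]

theorem sidon_class {X : Set G} (hX : Indep X) (C : Finset G) (hC : (C : Set G) ⊆ X) (π : G → ℕ)
    (hπ : ∀ x ∈ C, (π x).Prime ∧ π x ≠ 2 ∧ ∃ n, x ^ (π x ^ n) = 1) (hinj : Set.InjOn π C) :
    ∃ S : Bool → Set G, (∀ e, (1 : G) ∉ S e) ∧
      (∀ e, ∀ s ∈ S e, ∀ t ∈ S e, ∀ s' ∈ S e, ∀ t' ∈ S e,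
        s⁻¹ * t = s'⁻¹ * t' → s⁻¹ * t = 1 ∨ s = s') ∧
      ∀ φ : G → G, (∀ e g, ∀ s ∈ S e, ∃ s' ∈ S e, φ (g * s) = φ g * s') →
        ∀ x ∈ C, ∀ g, φ (g * x) = φ g * x := by
  have hne1 : ∀ x ∈ C, x ≠ 1 := fun x hx e => hX.one_notMem (e ▸ hC hx)
  obtain ⟨a, ha, haa⟩ := exists_exponents π C
    (fun x hx => ⟨(hπ x hx).1, (hπ x hx).2.1, hne1 x hx, (hπ x hx).2.2⟩) hinj
  have hda : ∀ x ∈ C, ¬ π x ∣ a x := fun x hx => Nat.not_dvd_of_pos_of_lt (ha x hx).1 (ha x hx).2
  have hback : ∀ x ∈ C, ∃ m : ℕ, (x ^ a x) ^ m = x := by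
    intro x hx
    obtain ⟨hp, -, n, hn⟩ := hπ x hx
    exact exists_pow_eq_self_of_coprime (coprime_orderOf hp hn (hda x hx))
  have hback2 : ∀ x ∈ C, ∃ m : ℕ, ((x ^ a x) ^ 2) ^ m = x := by
    intro x hx
    obtain ⟨hp, hp2, n, hn⟩ := hπ x hx
    have hd2 : ¬ π x ∣ 2 := fun h => hp2 ((Nat.prime_dvd_prime_iff_eq hp Nat.prime_two).1 h)
    simp only [← pow_mul x (a x) 2]
    exact exists_pow_eq_self_of_coprime (coprime_orderOf hp hn (hp.not_dvd_mul (hda x hx) hd2))
  have i1 : Indep ((fun x => x ^ a x) '' (C : Set G)) :=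
    hX.image hC _ (fun x _ => ⟨a x, rfl⟩) hback
  have i2 : Indep ((fun x => (x ^ a x) ^ 2) '' (C : Set G)) :=
    hX.image hC _ (fun x _ => ⟨a x * 2, (pow_mul _ _ _).symm⟩) hback2
  refine ⟨fun e => cond e ((fun x => x ^ a x) '' (C : Set G))
    ((fun x => (x ^ a x) ^ 2) '' (C : Set G)), ?_, ?_, ?_⟩
  · rintro (_ | _)
    · exact i2.one_notMem
    · exact i1.one_notMem
  · rintro (_ | _)
    · apply i2.sidon
      rintro _ ⟨x, hx, rfl⟩ _ ⟨y, hy, rfl⟩ hne
      exact (haa x hx y hy (fun e => hne (by rw [e]))).2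
    · apply i1.sidon
      rintro _ ⟨x, hx, rfl⟩ _ ⟨y, hy, rfl⟩ hne
      exact (haa x hx y hy (fun e => hne (by rw [e]))).1
  · intro φ hφ x hx g
    have := i1.rigid (by
      rintro _ ⟨y, hy, rfl⟩ _ ⟨z, hz, rfl⟩ e
      by_cases hyz : z = y
      · rw [hyz]
      exfalso
      obtain ⟨hp, -, n, hn⟩ := hπ y hy
      obtain ⟨hq, -, k, hk⟩ := hπ z hz
      have hpq : ¬ π z ∣ π y := fun h =>
        hyz (hinj hz hy ((Nat.prime_dvd_prime_iff_eq hq hp).1 h))
      have hord : orderOf (y ^ a y) ∣ π y ^ n := by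
        apply orderOf_dvd_of_pow_eq_one
        rw [← pow_mul, mul_comm, pow_mul, hn, one_pow]
      simp only [← pow_mul] at e
      refine pow_ne_one_of_not_dvd hq hk (hne1 z hz) (hq.not_dvd_mul (hda z hz) ?_) e
      exact fun h => hpq (hq.dvd_of_dvd_pow (h.trans hord))) φ (hφ true) (by
      rintro g _ ⟨y, hy, rfl⟩
      obtain ⟨_, ⟨z, hz, rfl⟩, e⟩ := hφ false g _ ⟨y, hy, rfl⟩
      exact ⟨_, ⟨z, hz, rfl⟩, e⟩) _ ⟨x, hx, rfl⟩
    obtain ⟨m, hm⟩ := hback x hx
    have h2 := map_mul_pow φ _ this m g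
    simp only [hm] at h2
    exact h2

end Pool.Agent.MP_a1dcd4_co

end

section

/-!
Assembly: every finite group is the automorphism group of a lattice of linear size.
-/

set_option autoImplicit false

namespace Pool.Agent.MP_a1dcd4_co

open Function Subgroup

variable {G : Type} [Group G]

theorem exists_indep (Z : Finset G) (hZ : closure (Z : Set G) = ⊤) :
    ∃ X : Finset G, X ⊆ Z ∧ closure (X : Set G) = ⊤ ∧ Indep (X : Set G) := by
  classical
  obtain ⟨X, hX, hmin⟩ := Finset.exists_min_image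
    (Z.powerset.filter (fun X : Finset G => closure (X : Set G) = ⊤)) Finset.card
    ⟨Z, Finset.mem_filter.2 ⟨Finset.mem_powerset_self Z, hZ⟩⟩
  obtain ⟨h1, h2⟩ := Finset.mem_filter.1 hX
  have h1 := Finset.mem_powerset.1 h1
  refine ⟨X, h1, h2, fun x hx hm => ?_⟩
  have h3 : closure ((X.erase x : Finset G) : Set G) = ⊤ := by
    rw [Finset.coe_erase, eq_top_iff, ← h2, closure_le]
    intro y hy
    by_cases e : y = x
    · rw [e]
      exact hm
    · exact Subgroup.subset_closure ⟨hy, e⟩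
  have h4 := hmin (X.erase x) (Finset.mem_filter.2
    ⟨Finset.mem_powerset.2 ((Finset.erase_subset _ _).trans h1), h3⟩)
  have h5 := Finset.card_erase_lt_of_mem (show x ∈ X from hx)
  omega

omit [Group G] in
theorem exists_index (Y : Finset G) :
    ∃ ι : G → ℕ, Set.InjOn ι Y ∧ ∀ x ∈ Y, ι x < Y.card := by
  classical
  refine ⟨fun x => if h : x ∈ Y then (Y.equivFin ⟨x, h⟩).1 else 0, ?_, ?_⟩
  · intro x hx y hy e
    have hx' : x ∈ Y := hx
    have hy' : y ∈ Y := hy
    simp only [hx', hy', dif_pos] at e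
    exact congrArg Subtype.val (Y.equivFin.injective (Fin.ext e))
  · intro x hx
    simp only [hx, dif_pos]
    exact (Y.equivFin ⟨x, hx⟩).2

theorem prime_data [Finite G] (p : ℕ) :
    ∃ (Q E : Subgroup G) (r : ℕ) (Y : Finset G), p.Prime → IsPGroup p Q ∧ ¬ p ∣ Q.index ∧ E ≤ Q ∧
      (∀ x ∈ E, ∀ y ∈ E, x * y = y * x) ∧ (∀ x ∈ E, x ^ p = 1) ∧ Nat.card E = p ^ r ∧
      Y.card ≤ 4 * r ^ 2 ∧ closure (Y : Set G) = Q := by
  classical
  by_cases hp : p.Prime
  swap
  · exact ⟨⊥, ⊥, 0, ∅, fun h => (hp h).elim⟩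
  have : Fact p.Prime := ⟨hp⟩
  let P : Sylow p G := default
  obtain ⟨E, r, Y, h1, h2, h3, h4, h5⟩ := rank_bound P.isPGroup'
  refine ⟨P, E.map (P : Subgroup G).subtype, r, Y.image Subtype.val, fun _ =>
    ⟨P.isPGroup', P.not_dvd_index, map_subtype_le E, ?_, ?_, ?_, ?_, ?_⟩⟩
  · rintro _ ⟨x, hx, rfl⟩ _ ⟨y, hy, rfl⟩
    exact congrArg Subtype.val (h1 x hx y hy)
  · rintro _ ⟨x, hx, rfl⟩
    exact congrArg Subtype.val (h2 x hx)
  · rw [Subgroup.card_map_of_injective (P : Subgroup G).subtype_injective, h3]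
  · exact Finset.card_image_le.trans h4
  · have := congrArg (Subgroup.map (P : Subgroup G).subtype) h5
    rw [MonoidHom.map_closure, ← MonoidHom.range_eq_map, Subgroup.range_subtype] at this
    rw [Finset.coe_image]
    exact this

theorem pair_cost (a b M : ℕ) (ha : a < M) (hb : b < M) : (Nat.pair a b + 1) ^ 3 ≤ M ^ 6 := by
  have h1 := Nat.pair_lt_max_add_one_sq a b
  have h2 : max a b + 1 ≤ M := by omega
  have h3 : Nat.pair a b + 1 ≤ M ^ 2 := h1.trans_le (Nat.pow_le_pow_left h2 2)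
  calc (Nat.pair a b + 1) ^ 3 ≤ (M ^ 2) ^ 3 := Nat.pow_le_pow_left h3 3
    _ = M ^ 6 := by ring

theorem two_mul_add_inj {a b : ℕ} {e e' : Bool} (h : 2 * a + e.toNat = 2 * b + e'.toNat) :
    a = b ∧ e = e' := by
  cases e <;> cases e' <;> simp at h ⊢ <;> omega

theorem main_aux [Finite G] (D B : ℕ) (hD : D = 4 * 369 ^ 2) (hB : B = 8 * 369 ^ 2 + 3) :
    ∃ (L : Type) (_ : Lattice L) (_ : Finite L),
      Nat.card L ≤ (2 + (Fintype.card ((Fin D × Bool) ⊕ Bool) + 1) ^ 2 +
        2 * (8 * B ^ 6 + 8 * Fintype.card ((Fin D × Bool) ⊕ Bool) ^ 3)) * Nat.card G ∧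
      Nonempty ((L ≃o L) ≃* G) := by
  classical
  choose Q E r Y hdata using prime_data (G := G)
  choose ι hι hι' using fun p => exists_index (Y p)
  have hYQ : ∀ p, p.Prime → ∀ x ∈ Y p, x ∈ Q p := by
    intro p hp x hx
    rw [← (hdata p hp).2.2.2.2.2.2.2]
    exact Subgroup.subset_closure hx
  have hQQ : ∀ p q, p.Prime → q.Prime → p ≠ q → ∀ x ∈ Q p, x ∈ Q q → x = 1 := by
    intro p q hp hq hne x hx hx'
    have : Fact p.Prime := ⟨hp⟩
    have : Fact q.Prime := ⟨hq⟩
    exact Subgroup.disjoint_def.1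
      (IsPGroup.disjoint_of_ne p q hne _ _ (hdata p hp).1 (hdata q hq).1) hx hx'
  have hZ : closure (((Nat.card G).primeFactors.biUnion Y : Finset G) : Set G) = ⊤ := by
    rw [← Subgroup.index_eq_one]
    by_contra hne
    obtain ⟨p, hp, hd⟩ := Nat.exists_prime_and_dvd hne
    have hmem : p ∈ (Nat.card G).primeFactors :=
      Nat.mem_primeFactors.2 ⟨hp, hd.trans (index_dvd_card _), Nat.card_pos.ne'⟩
    apply (hdata p hp).2.1
    refine hd.trans (index_dvd_of_le ?_)
    rw [← (hdata p hp).2.2.2.2.2.2.2]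
    apply Subgroup.closure_mono
    intro x hx
    exact Finset.mem_coe.2 (Finset.mem_biUnion.2 ⟨p, hmem, hx⟩)
  obtain ⟨X, hXZ, hXgen, hX⟩ := exists_indep _ hZ
  have hex : ∀ x ∈ X, ∃ p, p.Prime ∧ x ∈ Y p := by
    intro x hx
    obtain ⟨p, hp, hxp⟩ := Finset.mem_biUnion.1 (hXZ hx)
    exact ⟨p, Nat.prime_of_mem_primeFactors hp, hxp⟩
  choose! π hπ hπY using hex
  have hX1 : ∀ x ∈ X, x ≠ 1 := fun x hx e => hX.one_notMem (e ▸ hx)
  have hfam : ∀ p : ℕ, ∃ K : G × Bool → Subgroup G, p.Prime → (369 ≤ r p ∨ p = 2) →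
      (∀ j, K j ≤ E p) ∧
      (∀ z ∈ Y p, z ≠ 1 → ∀ j, z ∉ K j) ∧
      (∀ z ∈ Y p, ∀ z' ∈ Y p, z ≠ z' → ∀ j j', ∀ k ∈ K j, ∀ k' ∈ K j', k * z ≠ k' * z') ∧
      (∀ z ∈ Y p, ∀ z' ∈ Y p, ∀ e e', (z, e) ≠ (z', e') → ∀ x ∈ K (z, e), x ∈ K (z', e') →
        x = 1) ∧
      (∀ z ∈ Y p, ∀ z' ∈ Y p, ∀ e e', (z, e) ≠ (z', e') → ∀ k ∈ K (z, e), ∀ k' ∈ K (z', e'),
        z⁻¹ * k * z = z'⁻¹ * k' * z' → k = 1) ∧
      (∀ z ∈ Y p, ∀ e, (p + 2 * (Y p).card + 1) ^ 6 ≤ B ^ 6 * Nat.card (K (z, e))) := by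
    intro p
    by_cases h : p.Prime ∧ (369 ≤ r p ∨ p = 2)
    · have : Fact p.Prime := ⟨h.1⟩
      obtain ⟨-, -, -, h1, h2, h3, h4, -⟩ := hdata p h.1
      obtain ⟨K, hK⟩ := prime_family (E p) h1 h2 (r p) h3 (Y p) h4 h.2
      rw [← hB] at hK
      exact ⟨K, fun _ _ => hK⟩
    · exact ⟨fun _ => ⊥, fun h1 h2 => (h ⟨h1, h2⟩).elim⟩
  choose K2 hK2 using hfam
  have hcls : ∀ j : Fin D, ∃ S : Bool → Set G, (∀ e, (1 : G) ∉ S e) ∧
      (∀ e, ∀ s ∈ S e, ∀ t ∈ S e, ∀ s' ∈ S e, ∀ t' ∈ S e,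
        s⁻¹ * t = s'⁻¹ * t' → s⁻¹ * t = 1 ∨ s = s') ∧
      ∀ φ : G → G, (∀ e g, ∀ s ∈ S e, ∃ s' ∈ S e, φ (g * s) = φ g * s') →
        ∀ x ∈ X.filter (fun x => ¬ (369 ≤ r (π x) ∨ π x = 2) ∧ ι (π x) x = j.1), ∀ g,
          φ (g * x) = φ g * x := by
    intro j
    apply sidon_class hX _ (fun x hx => (Finset.mem_filter.1 hx).1) π
    · intro x hx
      obtain ⟨h1, h2, -⟩ := Finset.mem_filter.1 hx
      refine ⟨hπ x h1, fun e => h2 (Or.inr e), ?_⟩
      obtain ⟨n, hn⟩ := (hdata _ (hπ x h1)).1 ⟨x, hYQ _ (hπ x h1) x (hπY x h1)⟩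
      exact ⟨n, congrArg Subtype.val hn⟩
    · intro x hx y hy e
      obtain ⟨h1, -, h3⟩ := Finset.mem_filter.1 hx
      obtain ⟨h4, -, h6⟩ := Finset.mem_filter.1 hy
      apply hι (π x) (hπY x h1) (e ▸ hπY y h4)
      rw [h3, e, h6]
  choose S1 hS1 hS2 hS3 using hcls
  let A := {x : G // x ∈ X ∧ (369 ≤ r (π x) ∨ π x = 2)}
  have := Fintype.ofFinite A
  have hA : ∀ x : A, _ := fun x => hK2 (π x.1) (hπ x.1 x.2.1) x.2.2
  have hKQ : ∀ (x : A) j, K2 (π x.1) j ≤ Q (π x.1) := fun x j =>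
    ((hA x).1 j).trans (hdata _ (hπ x.1 x.2.1)).2.2.1
  have hxQ : ∀ x : A, x.1 ∈ Q (π x.1) := fun x => hYQ _ (hπ x.1 x.2.1) _ (hπY x.1 x.2.1)
  have hk1 : ∀ (x : A) j, ∀ k ∈ K2 (π x.1) j, k * x.1 ≠ 1 := by
    intro x j k hk e
    apply (hA x).2.1 x.1 (hπY x.1 x.2.1) (hX1 x.1 x.2.1) j
    have h := inv_mem hk
    rwa [← eq_inv_of_mul_eq_one_right e] at h
  have hpairne : ∀ (a b : A × Bool), (Sum.inr a : (Fin D × Bool) ⊕ (A × Bool)) ≠ Sum.inr b →
      (a.1.1, a.2) ≠ (b.1.1, b.2) := by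
    rintro ⟨a, e⟩ ⟨b, e'⟩ h h'
    simp only [Prod.mk.injEq] at h'
    apply h
    rw [Subtype.ext h'.1, h'.2]
  have hKK : ∀ (a b : A × Bool), (a.1.1, a.2) ≠ (b.1.1, b.2) →
      ∀ x ∈ K2 (π a.1.1) (a.1.1, a.2), x ∈ K2 (π b.1.1) (b.1.1, b.2) → x = 1 := by
    rintro ⟨a, e⟩ ⟨b, e'⟩ h x hx hx'
    by_cases hp : π a.1 = π b.1
    · simp only [← hp] at hx'
      exact (hA a).2.2.2.1 a.1 (hπY a.1 a.2.1) b.1 (hp ▸ hπY b.1 b.2.1) e e' h x hx hx'
    · exact hQQ _ _ (hπ a.1 a.2.1) (hπ b.1 b.2.1) hp x (hKQ a _ hx) (hKQ b _ hx')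
  refine lattice_of_system' (G := G) (T := (Fin D × Bool) ⊕ Bool)
    (I := (Fin D × Bool) ⊕ (A × Bool)) (B ^ 6)
    (Sum.elim (fun _ => ⊥) (fun a => K2 (π a.1.1) (a.1.1, a.2)))
    (Sum.elim (fun a => S1 a.1 a.2) (fun a => {a.1.1}))
    (Sum.elim Sum.inl (fun a => Sum.inr a.2))
    (Sum.elim (fun a => Nat.pair 0 (2 * a.1.1 + a.2.toNat))
      (fun a => Nat.pair (π a.1.1) (2 * ι (π a.1.1) a.1.1 + a.2.toNat)))
    ?_ ?_ ?_ ?_ ?_ ?_ ?_ ?_
  · rintro (⟨a, e⟩ | ⟨a, e⟩) (⟨b, e'⟩ | ⟨b, e'⟩) h <;>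
      simp only [Sum.elim_inl, Sum.elim_inr, Nat.pair_eq_pair] at h
    · obtain ⟨h1, h2⟩ := two_mul_add_inj h.2
      rw [Fin.ext h1, h2]
    · exact ((hπ b.1 b.2.1).ne_zero h.1.symm).elim
    · exact ((hπ a.1 a.2.1).ne_zero h.1).elim
    · obtain ⟨h1, h2⟩ := two_mul_add_inj h.2
      have hp := h.1
      rw [← hp] at h1
      have := hι (π a.1) (hπY a.1 a.2.1) (hp ▸ hπY b.1 b.2.1) h1
      rw [Subtype.ext this, h2]
  · rintro (⟨a, e⟩ | ⟨a, e⟩)
    · simp only [Sum.elim_inl, Subgroup.card_bot, mul_one]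
      have h1 := a.2
      have h2 := Bool.toNat_le e
      apply pair_cost <;> omega
    · simp only [Sum.elim_inr]
      refine le_trans ?_ ((hA a).2.2.2.2.2 a.1 (hπY a.1 a.2.1) e)
      have h1 := hι' (π a.1) a.1 (hπY a.1 a.2.1)
      have h2 := Bool.toNat_le e
      apply pair_cost <;> omega
  · rintro (⟨a, e⟩ | ⟨a, e⟩) k hk s hs
    · rw [Subgroup.mem_bot.1 hk, one_mul]
      exact fun h => hS1 a e (h ▸ hs)
    · rw [Set.mem_singleton_iff.1 hs]
      exact hk1 a _ k hk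
  · rintro (a | a) (b | b) hij x hx hx'
    · exact Subgroup.mem_bot.1 hx
    · exact Subgroup.mem_bot.1 hx
    · exact Subgroup.mem_bot.1 hx'
    · exact hKK a b (hpairne a b hij) x hx hx'
  · rintro (a | ⟨a, e⟩) (b | ⟨b, e'⟩) hij hτ k hk s hs k' hk' s' hs'
    · exact (hij (congrArg Sum.inl (Sum.inl.inj hτ))).elim
    · cases hτ
    · cases hτ
    · have he : e = e' := Sum.inr.inj hτ
      subst he
      rw [Set.mem_singleton_iff.1 hs, Set.mem_singleton_iff.1 hs']
      have hab : a.1 ≠ b.1 := fun h => hij (by rw [Subtype.ext h])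
      simp only [Sum.elim_inr] at hk hk'
      by_cases hp : π a.1 = π b.1
      · rw [← hp] at hk'
        exact (hA a).2.2.1 a.1 (hπY a.1 a.2.1) b.1 (hp ▸ hπY b.1 b.2.1) hab _ _ k hk k' hk'
      · intro h
        apply hk1 a _ k hk
        refine hQQ _ _ (hπ a.1 a.2.1) (hπ b.1 b.2.1) hp _ (mul_mem (hKQ a _ hk) (hxQ a)) ?_
        rw [h]
        exact mul_mem (hKQ b _ hk') (hxQ b)
  · rintro (a | ⟨a, e⟩) (b | ⟨b, e'⟩) hij hτ k hk s hs t ht k' hk' s' hs' t' ht'
    · exact (hij (congrArg Sum.inl (Sum.inl.inj hτ))).elim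
    · cases hτ
    · cases hτ
    · rw [Set.mem_singleton_iff.1 hs, Set.mem_singleton_iff.1 hs', Set.mem_singleton_iff.1 ht,
        Set.mem_singleton_iff.1 ht']
      simp only [Sum.elim_inr] at hk hk'
      intro h
      by_cases hp : π a.1 = π b.1
      · rw [← hp] at hk'
        have := (hA a).2.2.2.2.1 a.1 (hπY a.1 a.2.1) b.1 (hp ▸ hπY b.1 b.2.1) e e'
          (hpairne (a, e) (b, e') hij) k hk k' hk' h
        rw [this]
        simp
      · refine hQQ _ _ (hπ a.1 a.2.1) (hπ b.1 b.2.1) hp _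
          (mul_mem (mul_mem (inv_mem (hxQ a)) (hKQ a _ hk)) (hxQ a)) ?_
        rw [h]
        exact mul_mem (mul_mem (inv_mem (hxQ b)) (hKQ b _ hk')) (hxQ b)
  · rintro (⟨a, e⟩ | ⟨a, e⟩) k hk s hs t ht k' hk' s' hs' t' ht' h
    · rw [Subgroup.mem_bot.1 hk, Subgroup.mem_bot.1 hk', mul_one, mul_one] at h
      rw [Subgroup.mem_bot.1 hk, mul_one]
      rcases hS2 a e s hs t ht s' hs' t' ht' h with h1 | h1
      · exact Or.inl h1
      · right
        rw [h1, mul_inv_cancel]
        exact one_mem _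
    · right
      rw [Set.mem_singleton_iff.1 hs, Set.mem_singleton_iff.1 hs', mul_inv_cancel]
      exact one_mem _
  · intro φ hφ
    have hgen : ∀ x ∈ X, ∀ g, φ (g * x) = φ g * x := by
      intro x hx g
      by_cases hbig : 369 ≤ r (π x) ∨ π x = 2
      · obtain ⟨k, hk, s, hs, e⟩ := hφ (Sum.inr (⟨x, hx, hbig⟩, false)) g x rfl
        obtain ⟨k', hk', s', hs', e'⟩ := hφ (Sum.inr (⟨x, hx, hbig⟩, true)) g x rfl
        have hs1 : s = x := hs
        have hs2 : s' = x := hs'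
        rw [hs1] at e
        rw [hs2, e, mul_left_inj, mul_right_inj] at e'
        subst e'
        have := hKK (⟨x, hx, hbig⟩, false) (⟨x, hx, hbig⟩, true) (by simp) k hk hk'
        rw [e, this, mul_one]
      · have hlt : ι (π x) x < D := by
          have h1 := hι' (π x) x (hπY x hx)
          have h2 := (hdata _ (hπ x hx)).2.2.2.2.2.2.1
          have h3 : r (π x) ^ 2 ≤ 369 ^ 2 := Nat.pow_le_pow_left (by omega) 2
          omega
        refine hS3 ⟨_, hlt⟩ φ ?_ x (Finset.mem_filter.2 ⟨hx, hbig, rfl⟩) g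
        intro e g s hs
        obtain ⟨k, hk, s', hs', h⟩ := hφ (Sum.inl (⟨_, hlt⟩, e)) g s hs
        rw [Subgroup.mem_bot.1 hk, mul_one] at h
        exact ⟨s', hs', h⟩
    intro g z
    have hz : z ∈ closure (X : Set G) := by rw [hXgen]; trivial
    induction hz using Subgroup.closure_induction generalizing g with
    | mem x hx => exact hgen x hx g
    | one => simp
    | mul x y _ _ hx hy => rw [← mul_assoc, hy, hx, mul_assoc]
    | inv x _ hx =>
      have := hx (g * x⁻¹)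
      rw [inv_mul_cancel_right] at this
      rw [this, mul_inv_cancel_right]

theorem main_result :
    ∃ c : ℕ, ∀ (G : Type) [Group G] [Finite G],
      ∃ (L : Type) (_ : Lattice L) (_ : Finite L),
        Nat.card L ≤ c * Nat.card G ∧ Nonempty ((L ≃o L) ≃* G) := by
  obtain ⟨D, hD⟩ : ∃ D : ℕ, D = 4 * 369 ^ 2 := ⟨_, rfl⟩
  obtain ⟨B, hB⟩ : ∃ B : ℕ, B = 8 * 369 ^ 2 + 3 := ⟨_, rfl⟩
  exact ⟨_, fun G _ _ => main_aux D B hD hB⟩

end Pool.Agent.MP_a1dcd4_co

end
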